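import Pool.Agent.Q308.NR.SQ

/-!
# The forcing notion `Col(ω₁, T) × Add(ω, J)`
-/

namespace Pool.Agent.Q308.NR

open Ordinal Cardinal Set

/-- Partial functions from `ω₁` to `T` with bounded (hence countable) domain, ordered by reverse
extension. -/
def Col (T : Type) : Type := {p : W → Option T // ∃ δ, ∀ ξ, δ ≤ ξ → p ξ = none}

instance (T : Type) : Preorder (Col T) where
  le p q := ∀ ξ s, q.1 ξ = some s → p.1 ξ = some s
  le_refl _ _ _ h := h
  le_trans _ _ _ h h' ξ s hs := h ξ s (h' ξ s hs)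

/-- Finite partial functions from `J` to `Bool`, ordered by reverse extension. -/
def Add (J : Type) : Type := {s : Finset (J × Bool) // ∀ a ∈ s, ∀ b ∈ s, a.1 = b.1 → a.2 = b.2}

instance (J : Type) : Preorder (Add J) where
  le s t := t.1 ⊆ s.1
  le_refl _ := Finset.Subset.refl _
  le_trans _ _ _ h h' := Finset.Subset.trans h' h

section

variable {T J : Type}

theorem Col.le_def {p q : Col T} : p ≤ q ↔ ∀ ξ s, q.1 ξ = some s → p.1 ξ = some s := Iff.rfl

theorem Add.le_def {a b : Add J} : a ≤ b ↔ b.1 ⊆ a.1 := Iff.rfl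

/-- Lower bounds of decreasing sequences. -/
theorem Col.exists_lower (p : ℕ → Col T) (hp : ∀ n, p (n + 1) ≤ p n) : ∃ q, ∀ n, q ≤ p n := by
  classical
  have hmono : ∀ n m, n ≤ m → p m ≤ p n := by
    intro n m h
    induction m, h using Nat.le_induction with
    | base => exact le_rfl
    | succ m _ ih => exact (hp m).trans ih
  choose δ hδ using fun n => (p n).2
  obtain ⟨β, hβ⟩ := exists_bound_W δ
  let q : W → Option T := fun ξ => if h : ∃ n, ∃ s, (p n).1 ξ = some s then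
    some h.choose_spec.choose else none
  refine ⟨⟨q, β, ?_⟩, ?_⟩
  · intro ξ hξ
    apply dif_neg
    rintro ⟨n, s, hs⟩
    rw [hδ n ξ ((hβ n).le.trans hξ)] at hs
    exact absurd hs (by simp)
  · intro n ξ s hs
    have h : ∃ n, ∃ s, (p n).1 ξ = some s := ⟨n, s, hs⟩
    change (if h : ∃ n, ∃ s, (p n).1 ξ = some s then some h.choose_spec.choose else none) = _
    rw [dif_pos h]
    have h1 := h.choose_spec.choose_spec
    rcases le_total n h.choose with h2 | h2
    · exact h1.symm.trans (hmono _ _ h2 ξ s hs)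
    · have h3 := hmono _ _ h2 ξ _ h1
      rw [hs] at h3
      exact h3.symm

/-- The finite stage of the fusion. -/
theorem fusion_stage [DecidableEq J] {S : Type} {R : S → S → Prop} (htrans : ∀ x y z, R x y → R y z → R x z)
    {Inv : S → Prop} {Task : ℕ → S → Col T × Add J → Prop}
    (hTc : ∀ m w c c', c' ≤ c → Task m w c → Task m w c')
    (hTw : ∀ m w w' c, R w w' → Task m w c → Task m w' c)
    {p0 : Col T} {a0 : Add J}
    (hd : ∀ m, ∀ c ≤ (p0, a0), ∀ w, Inv w → ∃ c' ≤ c, ∃ w', R w w' ∧ Inv w' ∧ Task m w' c')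
    (L : List (ℕ × Add J)) (p : Col T) (hp : p ≤ p0) (X : Finset J) (w : S) (hw : Inv w) :
    ∃ p' ≤ p, ∃ X', X ⊆ X' ∧ ∃ w', R w w' ∧ Inv w' ∧
      ∀ x ∈ L, x.2 ≤ a0 → ∃ a' ≤ x.2, (∀ y ∈ a'.1, y.1 ∈ X') ∧ Task x.1 w' (p', a') := by
  induction L with
  | nil =>
    obtain ⟨c', hc', w', h1, h2, _⟩ := hd 0 (p, a0) ⟨hp, le_rfl⟩ w hw
    exact ⟨p, le_rfl, X, Finset.Subset.refl _, w', h1, h2, fun x hx => absurd hx (by simp)⟩
  | cons x L ih =>
    obtain ⟨p1, hp1, X1, hX1, w1, hR1, hI1, h1⟩ := ih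
    by_cases hx : x.2 ≤ a0
    · obtain ⟨⟨p2, a2⟩, hc2, w2, hR2, hI2, hT2⟩ := hd x.1 (p1, x.2) ⟨hp1.trans hp, hx⟩ w1 hI1
      refine ⟨p2, hc2.1.trans hp1, X1 ∪ a2.1.image Prod.fst,
        hX1.trans Finset.subset_union_left, w2, htrans _ _ _ hR1 hR2, hI2, ?_⟩
      intro y hy hya
      rcases List.mem_cons.1 hy with rfl | hy
      · refine ⟨a2, hc2.2, fun z hz => ?_, hT2⟩
        exact Finset.mem_union_right _ (Finset.mem_image_of_mem _ hz)
      · obtain ⟨a', ha', hs, hT⟩ := h1 y hy hya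
        refine ⟨a', ha', fun z hz => Finset.mem_union_left _ (hs z hz), ?_⟩
        exact hTw _ _ _ _ hR2 (hTc _ _ _ _ (show ((p2, a') : Col T × Add J) ≤ (p1, a') from
          ⟨hc2.1, le_rfl⟩) hT)
    · refine ⟨p1, hp1, X1, hX1, w1, hR1, hI1, ?_⟩
      intro y hy hya
      rcases List.mem_cons.1 hy with rfl | hy
      · exact absurd hya hx
      · exact h1 y hy hya

/-- Restriction of a Cohen condition to a finite set. -/
def Add.restr [DecidableEq J] (a : Add J) (X : Finset J) : Add J :=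
  ⟨a.1.filter (fun y => y.1 ∈ X), fun x hx y hy h =>
    a.2 x (Finset.mem_filter.1 hx).1 y (Finset.mem_filter.1 hy).1 h⟩

/-- **Fusion.** -/
theorem fusion {S : Type} {R : S → S → Prop} (htrans : ∀ x y z, R x y → R y z → R x z)
    {Inv : S → Prop} {Task : ℕ → S → Col T × Add J → Prop}
    (hTc : ∀ m w c c', c' ≤ c → Task m w c → Task m w c')
    (hTw : ∀ m w w' c, R w w' → Task m w c → Task m w' c)
    {p0 : Col T} {a0 : Add J}
    (hd : ∀ m, ∀ c ≤ (p0, a0), ∀ w, Inv w → ∃ c' ≤ c, ∃ w', R w w' ∧ Inv w' ∧ Task m w' c')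
    (w0 : S) (hw0 : Inv w0) :
    ∃ p ≤ p0, ∃ w : ℕ → S, (∀ n, R (w n) (w (n + 1))) ∧ (∀ n, Inv (w n)) ∧
      ∀ m, ∀ c ≤ (p, a0), ∃ c' ≤ c, ∃ n, Task m (w n) c' := by
  classical
  -- all pairs of a task number at most `n` and a condition with support in `X`
  have hlist : ∀ (n : ℕ) (X : Finset J), ∃ L : List (ℕ × Add J), ∀ m ≤ n, ∀ a : Add J,
      (∀ y ∈ a.1, y.1 ∈ X) → (m, a) ∈ L := by
    intro n X
    have hfin : {a : Add J | ∀ y ∈ a.1, y.1 ∈ X}.Finite := by
      have hinj : Set.InjOn (fun a : Add J => a.1) {a : Add J | ∀ y ∈ a.1, y.1 ∈ X} :=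
        fun a _ b _ h => Subtype.ext h
      refine Set.Finite.of_finite_image ?_ hinj
      refine Set.Finite.subset ((X ×ˢ (Finset.univ : Finset Bool)).powerset.finite_toSet) ?_
      rintro _ ⟨a, ha, rfl⟩
      simp only [Finset.coe_powerset, Set.mem_preimage, Set.mem_powerset_iff, Finset.coe_subset]
      intro y hy
      exact Finset.mem_product.2 ⟨ha y hy, Finset.mem_univ _⟩
    refine ⟨((Finset.range (n + 1)) ×ˢ hfin.toFinset).toList, ?_⟩
    intro m hm a ha
    rw [Finset.mem_toList, Finset.mem_product]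
    refine ⟨Finset.mem_range.2 (by change m < n + 1; omega), ?_⟩
    rw [Set.Finite.mem_toFinset]
    exact ha
  choose L hL using hlist
  let St := {x : Col T × Finset J × S // x.1 ≤ p0 ∧ Inv x.2.2}
  have hstep : ∀ (n : ℕ) (x : St), ∃ y : St, y.1.1 ≤ x.1.1 ∧ x.1.2.1 ⊆ y.1.2.1 ∧
      R x.1.2.2 y.1.2.2 ∧ ∀ z ∈ L n x.1.2.1, z.2 ≤ a0 →
        ∃ a' ≤ z.2, (∀ u ∈ a'.1, u.1 ∈ y.1.2.1) ∧ Task z.1 y.1.2.2 (y.1.1, a') := by
    intro n x
    obtain ⟨p', hp', X', hX', w', hR, hI, h⟩ := fusion_stage htrans hTc hTw hd (L n x.1.2.1)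
      x.1.1 x.2.1 x.1.2.1 x.1.2.2 x.2.2
    exact ⟨⟨(p', X', w'), hp'.trans x.2.1, hI⟩, hp', hX', hR, h⟩
  choose f hf1 hf2 hf3 hf4 using hstep
  let st : ℕ → St := fun n => Nat.rec ⟨(p0, a0.1.image Prod.fst, w0), le_rfl, hw0⟩
    (fun n x => f n x) n
  have hst : ∀ n, st (n + 1) = f n (st n) := fun n => rfl
  obtain ⟨pω, hpω⟩ := Col.exists_lower (fun n => (st n).1.1) (fun n => by
    change (st (n + 1)).1.1 ≤ (st n).1.1
    rw [hst]
    exact hf1 n (st n))
  refine ⟨pω, hpω 0, fun n => (st n).1.2.2, fun n => ?_, fun n => (st n).2.2, ?_⟩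
  · change R (st n).1.2.2 (st (n + 1)).1.2.2
    rw [hst]
    exact hf3 n (st n)
  · rintro m ⟨p', a''⟩ ⟨hp', ha''⟩
    have hXmono : Monotone fun n => (st n).1.2.1 := monotone_nat_of_le_succ fun n => by
      change (st n).1.2.1 ⊆ (st (n + 1)).1.2.1
      rw [hst]
      exact hf2 n (st n)
    -- a stage which catches the whole relevant part of `a''`
    have hcatch : ∃ n ≥ m, ∀ y ∈ a''.1, (∃ k, y.1 ∈ (st k).1.2.1) → y.1 ∈ (st n).1.2.1 := by
      have h : ∀ s : Finset (J × Bool), ∃ n ≥ m, ∀ y ∈ s, (∃ k, y.1 ∈ (st k).1.2.1) →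
          y.1 ∈ (st n).1.2.1 := by
        intro s
        induction s using Finset.induction_on with
        | empty => exact ⟨m, le_rfl, fun y hy => absurd hy (Finset.notMem_empty y)⟩
        | insert x s _ ih =>
          obtain ⟨n, hn, h⟩ := ih
          by_cases hx : ∃ k, x.1 ∈ (st k).1.2.1
          · obtain ⟨k, hk⟩ := hx
            refine ⟨max n k, hn.trans (le_max_left _ _), fun y hy hyk => ?_⟩
            rcases Finset.mem_insert.1 hy with rfl | hy
            · exact hXmono (le_max_right n k) hk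
            · exact hXmono (le_max_left n k) (h y hy hyk)
          · refine ⟨n, hn, fun y hy hyk => ?_⟩
            rcases Finset.mem_insert.1 hy with rfl | hy
            · exact absurd hyk hx
            · exact h y hy hyk
      exact h a''.1
    obtain ⟨n, hn, hcatch⟩ := hcatch
    let ar : Add J := a''.restr (st n).1.2.1
    have har0 : ar ≤ a0 := by
      intro y hy
      refine Finset.mem_filter.2 ⟨ha'' hy, ?_⟩
      exact hXmono (Nat.zero_le n) (Finset.mem_image_of_mem _ hy)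
    have hmem : (m, ar) ∈ L n (st n).1.2.1 :=
      hL n (st n).1.2.1 m hn ar fun y hy => (Finset.mem_filter.1 hy).2
    obtain ⟨a', ha', hsupp, hT⟩ := hf4 n (st n) (m, ar) hmem har0
    rw [← hst] at hsupp hT
    have hcomp : ∀ x ∈ a''.1 ∪ a'.1, ∀ y ∈ a''.1 ∪ a'.1, x.1 = y.1 → x.2 = y.2 := by
      have key : ∀ x ∈ a''.1, ∀ y ∈ a'.1, x.1 = y.1 → x.2 = y.2 := by
        intro x hx y hy hxy
        have h1 : x.1 ∈ (st n).1.2.1 := hcatch x hx ⟨n + 1, by rw [hxy]; exact hsupp y hy⟩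
        have h2 : x ∈ ar.1 := Finset.mem_filter.2 ⟨hx, h1⟩
        exact a'.2 x (ha' h2) y hy hxy
      intro x hx y hy hxy
      rcases Finset.mem_union.1 hx with hx | hx <;> rcases Finset.mem_union.1 hy with hy | hy
      · exact a''.2 x hx y hy hxy
      · exact key x hx y hy hxy
      · exact (key y hy x hx hxy.symm).symm
      · exact a'.2 x hx y hy hxy
    refine ⟨(p', ⟨a''.1 ∪ a'.1, hcomp⟩), ⟨le_rfl, Finset.subset_union_left⟩, n + 1, ?_⟩
    refine hTc _ _ _ _ ?_ hT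
    exact ⟨hp'.trans (hpω (n + 1)), Finset.subset_union_right⟩

/-- The generic enumeration. -/
def pcCA (c : Col T × Add J) (ξ : W) : Option T := c.1.1 ξ

end

theorem sys_colAdd {J : Type} : Sys (Col SQ × Add J) SQ SQ.Bd pcCA where
  mono c c' ξ s hcc' h := hcc'.1 ξ s h
  total c δ := by
    classical
    obtain ⟨ε, hε⟩ := c.1.2
    refine ⟨(⟨fun ξ => if ξ < δ then (match c.1.1 ξ with
      | none => some SQ.empty
      | some s => some s) else c.1.1 ξ, max δ ε, ?_⟩, c.2), ⟨?_, le_rfl⟩, ?_⟩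
    · intro ξ hξ
      have h1 : ¬ ξ < δ := not_lt.2 ((le_max_left _ _).trans hξ)
      simp only [h1, if_false]
      exact hε ξ ((le_max_right _ _).trans hξ)
    · intro ξ s hs
      change (if ξ < δ then _ else _) = some s
      split_ifs with h
      · rw [hs]
      · exact hs
    · intro ξ hξ
      change ∃ s, (if ξ < δ then _ else _) = some s
      rw [if_pos hξ]
      cases h : c.1.1 ξ with
      | none => exact ⟨_, rfl⟩
      | some s => exact ⟨_, rfl⟩
  onto c s := by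
    classical
    obtain ⟨ε, hε⟩ := c.1.2
    obtain ⟨δ, hδ⟩ := exists_gt_W ε
    refine ⟨(⟨fun ξ => if ξ = ε then some s else c.1.1 ξ, δ, ?_⟩, c.2), ⟨?_, le_rfl⟩, ε, ?_⟩
    · intro ξ hξ
      have h1 : ξ ≠ ε := by
        rintro rfl
        exact absurd hδ (not_lt.2 hξ)
      change (if ξ = ε then some s else c.1.1 ξ) = none
      rw [if_neg h1]
      exact hε ξ (hδ.le.trans hξ)
    · intro ξ s' hs'
      have h1 : ξ ≠ ε := by
        rintro rfl
        rw [hε ξ le_rfl] at hs'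
        exact absurd hs' (by simp)
      change (if ξ = ε then some s else c.1.1 ξ) = _
      rw [if_neg h1]
      exact hs'
    · change (if ε = ε then some s else c.1.1 ε) = _
      rw [if_pos rfl]
  reg U hU c hd := by
    classical
    obtain ⟨p, hp, w, _, _, hw⟩ := fusion (S := Finset W) (R := fun x y => x ⊆ y)
      (Inv := fun _ => True) (Task := fun m w c => ∃ η ∈ w, c ∈ U m η)
      (fun x y z h h' => h.trans h')
      (fun m w c c' hcc' ⟨η, h1, h2⟩ => ⟨η, h1, hU m η c c' hcc' h2⟩)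
      (fun m w w' c h ⟨η, h1, h2⟩ => ⟨η, h h1, h2⟩) (p0 := c.1) (a0 := c.2)
      (by
        intro m c' hc' w _
        obtain ⟨c'', hc'', η, hη⟩ := hd c' hc' m
        exact ⟨c'', hc'', insert η w, Finset.subset_insert _ _, trivial, η,
          Finset.mem_insert_self _ _, hη⟩) ∅ trivial
    obtain ⟨β, hβ⟩ : ∃ β : W, ∀ n, ∀ η ∈ w n, η < β := by
      obtain ⟨β, hβ⟩ := exists_bound_W (fun x : Σ n, {η // η ∈ w n} => x.2.1)
      exact ⟨β, fun n η hη => hβ ⟨n, η, hη⟩⟩
    refine ⟨(p, c.2), ⟨hp, le_rfl⟩, β, fun n c'' hc'' => ?_⟩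
    obtain ⟨c3, hc3, k, η, hη, hmem⟩ := hw n c'' hc''
    exact ⟨c3, hc3, η, hβ k η hη, hmem⟩
  bmono := SQ.bd_mono
  bshrink := SQ.bd_shrink
  bext := SQ.bd_ext
  start := ⟨SQ.empty, 0, SQ.bd_empty⟩
  star c δ p _ Task hTm hTw hTd w0 hw0 := by
    obtain ⟨p', hp', w, hR, hI, hw⟩ := fusion (S := W × ℚ) (R := fun x y => Ext p x y)
      (Inv := InT SQ.Bd δ p) (Task := Task)
      (fun x y z h h' => ⟨h.1.trans h'.1, h'.2.trans h.2⟩) hTm hTw (p0 := c.1) (a0 := c.2)
      hTd w0 hw0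
    refine ⟨(p', c.2), ⟨hp', le_rfl⟩, w, hI, hw, ?_⟩
    exact SQ.exists_union (fun n => p (w n).1) (fun n => (hR n).1) (fun n => (w n).2)
      (fun n => (hR n).2) (fun n => (hI n).2)

end Pool.Agent.Q308.NR
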