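import Pool.Agent.Q308.NR.Defs

/-!
# The general non-specializability theorem
-/

namespace Pool.Agent.Q308.NR

open Ordinal Cardinal Set

/-! ### Basic facts on forcing -/

section basic

variable {P : Type} [Preorder P]

theorem FMeets.mono {p q : P} {D : Set P} (h : FMeets p D) (hqp : q ≤ p) : FMeets q D :=
  fun r hr => h r (hr.trans hqp)

theorem FMisses.mono {p q : P} {D : Set P} (h : FMisses p D) (hqp : q ≤ p) : FMisses q D :=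
  fun r hr => h r (hr.trans hqp)

theorem FMeets.of_mem {p d : P} {D : Set P} (hd : d ∈ D) (h : p ≤ d) : FMeets p D :=
  fun q hq => ⟨q, le_rfl, d, hd, hq.trans h⟩

theorem FMeets.not_misses {p : P} {D : Set P} (h : FMeets p D) : ¬ FMisses p D := by
  intro h'
  obtain ⟨r, hr, d, hd, hrd⟩ := h p le_rfl
  exact h' r hr ⟨d, hd, hrd⟩

theorem FMisses.iff {p : P} {D : Set P} : FMisses p D ↔ ∀ q ≤ p, ¬ FMeets q D := by
  constructor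
  · intro h q hq hm
    exact hm.not_misses (h.mono hq)
  · rintro h q hq ⟨d, hd, hqd⟩
    exact h q hq (FMeets.of_mem hd hqd)

theorem FMeets.of_dense {p : P} {D : Set P} (h : ∀ q ≤ p, ∃ r ≤ q, FMeets r D) : FMeets p D := by
  intro q hq
  obtain ⟨r, hr, hm⟩ := h q hq
  obtain ⟨s, hs, d, hd, hsd⟩ := hm r le_rfl
  exact ⟨s, hs.trans hr, d, hd, hsd⟩

theorem fmeets_iUnion {ι : Type} {p : P} {D : ι → Set P} (h : FMeets p (⋃ i, D i)) :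
    ∃ q ≤ p, ∃ i, FMeets q (D i) := by
  obtain ⟨r, hr, d, hd, hrd⟩ := h p le_rfl
  obtain ⟨i, hi⟩ := Set.mem_iUnion.1 hd
  exact ⟨r, hr, i, FMeets.of_mem hi hrd⟩

variable {C : Type} [Preorder C] {π : P → C}

theorem fmeets_pull (hπ : IsProjection π) {p : P} {D : Set C} :
    FMeets p (pull π D) ↔ FMeets (π p) D := by
  constructor
  · intro h c hc
    obtain ⟨q, hq, hqc⟩ := hπ.lift p c hc
    obtain ⟨r, hr, e, ⟨d, hd, hed⟩, hre⟩ := h q hq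
    exact ⟨π r, (hπ.mono _ _ hr).trans hqc, d, hd, (hπ.mono _ _ hre).trans hed⟩
  · intro h q hq
    obtain ⟨c, hc, d, hd, hcd⟩ := h (π q) (hπ.mono _ _ hq)
    obtain ⟨r, hr, hrc⟩ := hπ.lift q c hc
    exact ⟨r, hr, r, ⟨d, hd, hrc.trans hcd⟩, le_rfl⟩

theorem fmisses_pull (hπ : IsProjection π) {p : P} {D : Set C} :
    FMisses p (pull π D) ↔ FMisses (π p) D := by
  constructor
  · rintro h c hc ⟨d, hd, hcd⟩
    obtain ⟨q, hq, hqc⟩ := hπ.lift p c hc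
    exact h q hq ⟨q, ⟨d, hd, hqc.trans hcd⟩, le_rfl⟩
  · rintro h q hq ⟨e, ⟨d, hd, hed⟩, hqe⟩
    exact h (π q) (hπ.mono _ _ hq) ⟨d, hd, (hπ.mono _ _ hqe).trans hed⟩

end basic

/-! ### The well-order `ω₁` -/

/-- The ordinal of an element of the index type. -/
noncomputable def rk (w : W) : Ordinal.{0} := typein (α := W) (· < ·) w

theorem rk_lt (w : W) : rk w < ω₁ := typein_lt_self w

theorem rk_lt_rk {w w' : W} : rk w < rk w' ↔ w < w' := typein_lt_typein _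

theorem rk_inj {w w' : W} (h : rk w = rk w') : w = w' := by
  rcases lt_trichotomy w w' with h1 | h1 | h1
  · exact absurd (rk_lt_rk.2 h1) (by rw [h]; exact lt_irrefl _)
  · exact h1
  · exact absurd (rk_lt_rk.2 h1) (by rw [h]; exact lt_irrefl _)

theorem rk_surj {α : Ordinal.{0}} (h : α < ω₁) : ∃ w : W, rk w = α := by
  refine ⟨enum (α := W) (· < ·) ⟨α, by rw [type_toType]; exact h⟩, ?_⟩
  exact typein_enum _ _

theorem countable_Iio_of_lt {δ : Ordinal.{0}} (h : δ < ω₁) : (Set.Iio δ).Countable := by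
  rw [← Cardinal.le_aleph0_iff_set_countable, Cardinal.mk_Iio_ordinal]
  have h3 : δ.card < ℵ₁ := by
    rw [← Cardinal.lt_ord, Cardinal.ord_aleph]
    exact h
  have h4 : δ.card ≤ ℵ₀ := by
    rw [← Order.lt_succ_iff, Cardinal.succ_aleph0]
    exact h3
  simpa using Cardinal.lift_le.{1}.2 h4

theorem succ_lt_omega_one {δ : Ordinal.{0}} (h : δ < ω₁) : Order.succ δ < ω₁ :=
  (Cardinal.isSuccLimit_omega 1).succ_lt h

theorem countable_Iio_W (γ : W) : (Set.Iio γ).Countable := by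
  have h1 := countable_Iio_of_lt (rk_lt γ)
  have h2 : Set.Iio γ = rk ⁻¹' (Set.Iio (rk γ)) := by
    ext x
    simp [rk_lt_rk]
  rw [h2]
  exact h1.preimage (fun _ _ => rk_inj)

theorem exists_gt_W (γ : W) : ∃ δ : W, γ < δ := by
  obtain ⟨δ, hδ⟩ := rk_surj (succ_lt_omega_one (rk_lt γ))
  refine ⟨δ, ?_⟩
  rw [← rk_lt_rk, hδ]
  exact Order.lt_succ _

theorem exists_bound_W {ι : Type} [Countable ι] (f : ι → W) : ∃ β : W, ∀ i, f i < β := by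
  have h1 : (⨆ i, Order.succ (rk (f i))) < ω₁ :=
    Ordinal.iSup_lt_omega_one fun i => succ_lt_omega_one (rk_lt _)
  obtain ⟨β, hβ⟩ := rk_surj h1
  refine ⟨β, fun i => ?_⟩
  rw [← rk_lt_rk, hβ]
  exact (Order.lt_succ _).trans_le (Ordinal.le_iSup (fun i => Order.succ (rk (f i))) i)

theorem mk_W : #W = ℵ₁ := by
  rw [W, Cardinal.mk_toType]
  simp

theorem exists_code : ∃ c : W → (ℕ → Bool), Function.Injective c := by
  have h1 : #W ≤ #(ℕ → Bool) := by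
    rw [mk_W]
    have h2 : #(ℕ → Bool) = 𝔠 := by simp
    rw [h2, ← Cardinal.succ_aleph0]
    exact Order.succ_le_of_lt Cardinal.aleph0_lt_continuum
  obtain ⟨f⟩ := h1
  exact ⟨f, f.injective⟩

/-! ### The abstract situation -/

/-- `p : W → T` enumerates nodes; `InT δ p Bd w` says that `w = (ξ, r)` is a condition of the
countable poset at `δ`. -/
def InT {T : Type} (Bd : T → ℚ → Prop) (δ : W) (p : W → T) (w : W × ℚ) : Prop :=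
  w.1 < δ ∧ Bd (p w.1) w.2

/-- Strict extension in the countable poset. -/
def Ext {T : Type} [PartialOrder T] (p : W → T) (w w' : W × ℚ) : Prop :=
  p w.1 < p w'.1 ∧ w'.2 < w.2

/-- The abstract requirements. -/
structure Sys (C T : Type) [Preorder C] [PartialOrder T] (Bd : T → ℚ → Prop)
    (pc : C → W → Option T) : Prop where
  mono : ∀ c c' ξ s, c' ≤ c → pc c ξ = some s → pc c' ξ = some s
  total : ∀ c δ, ∃ c' ≤ c, ∀ ξ < δ, ∃ s, pc c' ξ = some s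
  onto : ∀ c s, ∃ c' ≤ c, ∃ η, pc c' η = some s
  reg : ∀ U : ℕ → W → Set C, (∀ n η c c', c' ≤ c → c ∈ U n η → c' ∈ U n η) →
    ∀ c, (∀ c' ≤ c, ∀ n, ∃ c'' ≤ c', ∃ η, c'' ∈ U n η) →
      ∃ c' ≤ c, ∃ β, ∀ n, ∀ c'' ≤ c', ∃ c3 ≤ c'', ∃ η < β, c3 ∈ U n η
  bmono : ∀ t r r', Bd t r → r ≤ r' → Bd t r'
  bshrink : ∀ t r, Bd t r → ∃ r' < r, Bd t r'
  bext : ∀ t r, Bd t r → ∃ t', t < t' ∧ Bd t' r
  start : ∃ t r, Bd t r
  star : ∀ (c : C) (δ : W) (p : W → T), (∀ ξ < δ, pc c ξ = some (p ξ)) →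
    ∀ Task : ℕ → W × ℚ → C → Prop,
      (∀ m w c c', c' ≤ c → Task m w c → Task m w c') →
      (∀ m w w' c, Ext p w w' → Task m w c → Task m w' c) →
      (∀ m, ∀ c' ≤ c, ∀ w, InT Bd δ p w →
        ∃ c'' ≤ c', ∃ w', Ext p w w' ∧ InT Bd δ p w' ∧ Task m w' c'') →
      ∀ w0, InT Bd δ p w0 → ∃ c' ≤ c, ∃ w : ℕ → W × ℚ, (∀ n, InT Bd δ p (w n)) ∧
        (∀ m, ∀ c'' ≤ c', ∃ c3 ≤ c'', ∃ n, Task m (w n) c3) ∧
        ∃ t : T, ∀ n, p (w n).1 < t ∧ Bd t (w n).2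

section main

variable {C T : Type} [Preorder C] [PartialOrder T] {Bd : T → ℚ → Prop}
  {pc : C → W → Option T} {Q : Type} [Preorder Q] {π : Q → C}

/-- No new reals, for countable index types. -/
theorem noNew_countable {ι : Type} [Countable ι] {q₀ : Q} (hN : NoNewRealsOver π q₀)
    (σ : ι → Set Q) : ∀ q ≤ q₀, ∃ q' ≤ q, ∃ ρ : ι → Set C, ∀ i : ι, ∀ d ≤ q',
    (FMeets d (σ i) ↔ FMeets d (pull π (ρ i))) := by
  intro q hq
  obtain ⟨f, hf⟩ := exists_injective_nat ι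
  obtain ⟨q', hq', ρ, hρ⟩ := hN (fun n => ⋃ i : {i : ι // f i = n}, σ i.1) q hq
  refine ⟨q', hq', fun i => ρ (f i), fun i d hd => ?_⟩
  rw [← hρ (f i) d hd]
  have : (⋃ j : {j : ι // f j = f i}, σ j.1) = σ i := by
    ext x
    simp only [Set.mem_iUnion]
    constructor
    · rintro ⟨⟨j, hj⟩, hx⟩
      have hji := hf hj
      subst hji
      exact hx
    · intro hx
      exact ⟨⟨i, rfl⟩, hx⟩
  rw [this]

/-- Regularity of `ω₁` in the extension by `Q`. -/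
theorem reg_Q (hS : Sys C T Bd pc) (hπ : IsProjection π) {q₀ : Q} (hN : NoNewRealsOver π q₀)
    {ι : Type} [Countable ι] (U : ι → W → Set Q)
    (hU : ∀ n η q q', q' ≤ q → q ∈ U n η → q' ∈ U n η)
    (hd : ∀ q ≤ q₀, ∀ n, ∃ q' ≤ q, ∃ η, q' ∈ U n η) :
    ∀ q ≤ q₀, ∃ q' ≤ q, ∃ β, ∀ n, ∀ q'' ≤ q', ∃ q3 ≤ q'', ∃ η < β, q3 ∈ U n η := by
  classical
  intro q hq
  obtain ⟨x, hx⟩ := exists_code
  -- functional refinement
  let U' : ι → W → Set Q := fun n η => {q | q ∈ U n η ∧ ∀ η' < η, ∀ q' ≤ q, q' ∉ U n η'}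
  have hU'd : ∀ n η q q', q' ≤ q → q ∈ U' n η → q' ∈ U' n η := by
    rintro n η q q' hqq' ⟨h1, h2⟩
    exact ⟨hU n η q q' hqq' h1, fun η' hη' q'' hq'' => h2 η' hη' q'' (hq''.trans hqq')⟩
  have hU'f : ∀ n η η' q, q ∈ U' n η → q ∈ U' n η' → η = η' := by
    rintro n η η' q ⟨h1, h2⟩ ⟨h3, h4⟩
    rcases lt_trichotomy η η' with h | h | h
    · exact absurd h1 (h4 η h q le_rfl)
    · exact h
    · exact absurd h3 (h2 η' h q le_rfl)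
  have hU'dense : ∀ q ≤ q₀, ∀ n, ∃ q' ≤ q, ∃ η, q' ∈ U' n η := by
    intro q hq n
    have hne : {η : W | ∃ q' ≤ q, q' ∈ U n η}.Nonempty := by
      obtain ⟨q', hq', η, hη⟩ := hd q hq n
      exact ⟨η, q', hq', hη⟩
    have hmin := WellFounded.min_mem (wellFounded_lt (α := W)) _ hne
    obtain ⟨q', hq', hη⟩ := hmin
    refine ⟨q', hq', _, hη, ?_⟩
    intro η' hη' q'' hq'' hmem
    exact WellFounded.not_lt_min (wellFounded_lt (α := W)) _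
      (show η' ∈ {η : W | ∃ q' ≤ q, q' ∈ U n η} from ⟨q'', hq''.trans hq', hmem⟩) hη'
  -- the real coding the sequence
  obtain ⟨q₁, hq₁, ρ, hρ⟩ := noNew_countable hN
    (fun nk : ι × ℕ => {q | ∃ η, x η nk.2 = true ∧ q ∈ U' nk.1 η}) q hq
  let V : ι → W → Set C := fun n η => {c | ∀ k,
    (x η k = true → FMeets c (ρ (n, k))) ∧ (x η k = false → FMisses c (ρ (n, k)))}
  have hVd : ∀ n η c c', c' ≤ c → c ∈ V n η → c' ∈ V n η := by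
    intro n η c c' hcc' h k
    exact ⟨fun h1 => ((h k).1 h1).mono hcc', fun h1 => ((h k).2 h1).mono hcc'⟩
  have hVf : ∀ n η η' c, c ∈ V n η → c ∈ V n η' → η = η' := by
    intro n η η' c h h'
    apply hx
    funext k
    cases h1 : x η k <;> cases h2 : x η' k
    · rfl
    · exact absurd ((h k).2 h1) ((h' k).1 h2).not_misses
    · exact absurd ((h' k).2 h2) ((h k).1 h1).not_misses
    · rfl
  have hUV : ∀ n η, ∀ q' ≤ q₁, q' ∈ U' n η → π q' ∈ V n η := by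
    intro n η q' hq' hmem k
    constructor
    · intro h1
      rw [← fmeets_pull hπ, ← hρ (n, k) q' hq']
      exact FMeets.of_mem ⟨η, h1, hmem⟩ le_rfl
    · intro h1
      rw [← fmisses_pull hπ, FMisses.iff]
      intro d hd hm
      rw [← hρ (n, k) d (hd.trans hq')] at hm
      obtain ⟨e, he, f, ⟨η', h2, h3⟩, hef⟩ := hm d le_rfl
      have h4 := hU'd _ _ _ _ hef h3
      have h5 := hU'd _ _ _ _ (he.trans hd) hmem
      have h6 := hU'f _ _ _ _ h4 h5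
      rw [h6, h1] at h2
      exact absurd h2 (by simp)
  -- apply regularity in the extension by `C`
  obtain ⟨g, hg⟩ := exists_injective_nat ι
  have hreg := hS.reg (fun n η => {c | ∀ i : ι, g i = n → c ∈ V i η}) (by
    intro n η c c' hcc' h i hi
    exact hVd _ _ _ _ hcc' (h i hi)) (π q₁) (by
    intro c hc n
    by_cases hn : ∃ i, g i = n
    · obtain ⟨i, rfl⟩ := hn
      obtain ⟨q', hq', hq'c⟩ := hπ.lift q₁ c hc
      obtain ⟨q'', hq'', η, hη⟩ := hU'dense q' (hq'.trans (hq₁.trans hq)) i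
      refine ⟨π q'', (hπ.mono _ _ hq'').trans hq'c, η, ?_⟩
      intro j hj
      rw [hg hj]
      exact hUV i η q'' (hq''.trans hq') hη
    · obtain ⟨η⟩ : Nonempty W := by
        obtain ⟨w, _⟩ := rk_surj (α := 0) (Ordinal.omega_pos 1)
        exact ⟨w⟩
      exact ⟨c, le_rfl, η, fun i hi => absurd ⟨i, hi⟩ hn⟩)
  obtain ⟨c', hc', β, hβ⟩ := hreg
  obtain ⟨q', hq', hq'c⟩ := hπ.lift q₁ c' hc'
  refine ⟨q', hq'.trans hq₁, β, ?_⟩
  intro n q'' hq''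
  obtain ⟨q3, hq3, η, hη⟩ := hU'dense q'' (hq''.trans (hq'.trans (hq₁.trans hq))) n
  have hV := hUV n η q3 (hq3.trans (hq''.trans hq')) hη
  refine ⟨q3, hq3, η, ?_, hη.1⟩
  obtain ⟨c3, hc3, η', hη', hmem⟩ := hβ (g n) (π q3)
    ((hπ.mono _ _ (hq3.trans hq'')).trans hq'c)
  have h1 := hmem n rfl
  have h2 := hVd _ _ _ _ hc3 hV
  rw [hVf _ _ _ _ h2 h1]
  exact hη'

variable (Bd) (pc) in
/-- `q` forces that `s` is a witness for `(t, r, o)`. -/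
def Wit (τ : T → ℕ → Set Q) (q : Q) (t : T) (r : ℚ) (o : Option ℕ) (s : T) : Prop :=
  t < s ∧ Bd s r ∧ ∀ m, o = some m → FMeets q (τ s m)

theorem Wit.mono {τ : T → ℕ → Set Q} {q q' : Q} {t : T} {r : ℚ} {o : Option ℕ} {s : T}
    (h : Wit Bd τ q t r o s) (hq : q' ≤ q) : Wit Bd τ q' t r o s :=
  ⟨h.1, h.2.1, fun m hm => (h.2.2 m hm).mono hq⟩

variable (Bd) (pc) (π) in
/-- `q` forces that all witnesses for nodes with index below `δ` appear below `δ'`. -/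
def Rel (τ : T → ℕ → Set Q) (q : Q) (δ δ' : W) : Prop :=
  ∀ ξ < δ, ∀ r o, ∀ q' ≤ q, ∀ t, pc (π q') ξ = some t → (∃ s, Wit Bd τ q' t r o s) →
    ∃ q'' ≤ q', ∃ ξ' < δ', ∃ s, pc (π q'') ξ' = some s ∧ Wit Bd τ q'' t r o s

theorem Rel.mono {τ : T → ℕ → Set Q} {q q' : Q} {δ δ' : W}
    (h : Rel Bd pc π τ q δ δ') (hq : q' ≤ q) : Rel Bd pc π τ q' δ δ' :=
  fun ξ hξ r o d hd => h ξ hξ r o d (hd.trans hq)

theorem rel_total (hS : Sys C T Bd pc) (hπ : IsProjection π) {q₀ : Q}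
    (hN : NoNewRealsOver π q₀) (τ : T → ℕ → Set Q) (δ : W) :
    ∀ q ≤ q₀, ∃ q' ≤ q, ∃ δ', δ < δ' ∧ Rel Bd pc π τ q' δ δ' := by
  intro q hq
  haveI : Countable (Set.Iio δ) := countable_Iio_W δ
  obtain ⟨q', hq', β, hβ⟩ := reg_Q hS hπ hN
    (fun (x : Set.Iio δ × ℚ × Option ℕ) (η : W) => {q : Q |
      (∃ t s, pc (π q) x.1.1 = some t ∧ pc (π q) η = some s ∧ Wit Bd τ q t x.2.1 x.2.2 s) ∨
      (∀ q' ≤ q, ∀ t s, pc (π q') x.1.1 = some t → ¬ Wit Bd τ q' t x.2.1 x.2.2 s)})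
    (by
      rintro x η q q' hqq' (⟨t, s, h1, h2, h3⟩ | h)
      · exact Or.inl ⟨t, s, hS.mono _ _ _ _ (hπ.mono _ _ hqq') h1,
          hS.mono _ _ _ _ (hπ.mono _ _ hqq') h2, h3.mono hqq'⟩
      · exact Or.inr fun d hd => h d (hd.trans hqq'))
    (by
      intro q _ x
      by_cases h : ∀ q' ≤ q, ∀ t s, pc (π q') x.1.1 = some t → ¬ Wit Bd τ q' t x.2.1 x.2.2 s
      · exact ⟨q, le_rfl, x.1.1, Or.inr h⟩
      · push Not at h
        obtain ⟨q', hq', t, s, h1, h2⟩ := h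
        obtain ⟨c, hc, η, hη⟩ := hS.onto (π q') s
        obtain ⟨q'', hq'', hq''c⟩ := hπ.lift q' c hc
        exact ⟨q'', hq''.trans hq', η, Or.inl ⟨t, s, hS.mono _ _ _ _ (hπ.mono _ _ hq'') h1,
          hS.mono _ _ _ _ hq''c hη, h2.mono hq''⟩⟩) q hq
  obtain ⟨δ₁, hδ₁⟩ := exists_gt_W δ
  refine ⟨q', hq', max β δ₁, hδ₁.trans_le (le_max_right _ _), ?_⟩
  rintro ξ hξ r o d hd t ht ⟨s, hs⟩
  obtain ⟨q3, hq3, η, hη, h⟩ := hβ (⟨ξ, hξ⟩, r, o) d hd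
  rcases h with ⟨t', s', h1, h2, h3⟩ | h
  · have h4 := hS.mono _ _ _ _ (hπ.mono _ _ hq3) ht
    have h5 : t' = t := by
      have h6 : some t' = some t := by rw [← h1, ← h4]
      exact Option.some_injective _ h6
    subst h5
    exact ⟨q3, hq3, η, hη.trans_le (le_max_left _ _), s', h2, h3⟩
  · exact absurd (hs.mono hq3) (h q3 le_rfl t s (hS.mono _ _ _ _ (hπ.mono _ _ hq3) ht))

/-- The recursion towards a closure point. -/
def Un (Bd : T → ℚ → Prop) (pc : C → W → Option T) (π : Q → C) (τ : T → ℕ → Set Q) (δ₀ : W) :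
    ℕ → W → Set Q
  | 0, δ => {_q | δ = δ₀}
  | n + 1, δ' => {q | ∃ δ, q ∈ Un Bd pc π τ δ₀ n δ ∧ (δ < δ' ∧ Rel Bd pc π τ q δ δ') ∧
      ∀ δ'' < δ', ∀ q' ≤ q, ¬ (δ < δ'' ∧ Rel Bd pc π τ q' δ δ'')}

theorem closure_point (hS : Sys C T Bd pc) (hπ : IsProjection π) {q₀ : Q}
    (hN : NoNewRealsOver π q₀) (τ : T → ℕ → Set Q) (δ₀ : W) :
    ∀ q ≤ q₀, ∃ q' ≤ q, ∃ δ, δ₀ ≤ δ ∧ Rel Bd pc π τ q' δ δ := by
  intro q hq
  let U := Un Bd pc π τ δ₀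
  have hUd : ∀ n δ q q', q' ≤ q → q ∈ U n δ → q' ∈ U n δ := by
    intro n
    induction n with
    | zero =>
      intro δ q q' _ h
      exact h
    | succ n ih =>
      rintro δ' q q' hqq' ⟨δ, h1, h2, h3⟩
      exact ⟨δ, ih δ q q' hqq' h1, ⟨h2.1, h2.2.mono hqq'⟩, fun δ'' h d hd => h3 δ'' h d (hd.trans hqq')⟩
  have hUf : ∀ n δ δ' q, q ∈ U n δ → q ∈ U n δ' → δ = δ' := by
    intro n
    induction n with
    | zero =>
      intro δ δ' q h h'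
      exact (show δ = δ₀ from h).trans (show δ' = δ₀ from h').symm
    | succ n ih =>
      rintro δ δ' q ⟨ε, h1, h2, h3⟩ ⟨ε', h1', h2', h3'⟩
      have he := ih ε ε' q h1 h1'
      subst he
      rcases lt_trichotomy δ δ' with h | h | h
      · exact absurd h2 (h3' δ h q le_rfl)
      · exact h
      · exact absurd h2' (h3 δ' h q le_rfl)
  have hUdense : ∀ n, ∀ q ≤ q₀, ∃ q' ≤ q, ∃ δ, q' ∈ U n δ := by
    intro n
    induction n with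
    | zero =>
      intro q _
      exact ⟨q, le_rfl, δ₀, rfl⟩
    | succ n ih =>
      intro q hq
      obtain ⟨q₁, hq₁, δ, hδ⟩ := ih q hq
      have hne : {δ' : W | ∃ q' ≤ q₁, δ < δ' ∧ Rel Bd pc π τ q' δ δ'}.Nonempty := by
        obtain ⟨q', hq', δ', h⟩ := rel_total hS hπ hN τ δ q₁ (hq₁.trans hq)
        exact ⟨δ', q', hq', h⟩
      have hmin := WellFounded.min_mem (wellFounded_lt (α := W)) _ hne
      obtain ⟨q', hq', h⟩ := hmin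
      refine ⟨q', hq'.trans hq₁, _, δ, hUd _ _ _ _ hq' hδ, h, ?_⟩
      intro δ'' hδ'' d hd hmem
      exact WellFounded.not_lt_min (wellFounded_lt (α := W)) _
        (show δ'' ∈ {δ' : W | ∃ q' ≤ q₁, δ < δ' ∧ Rel Bd pc π τ q' δ δ'} from
          ⟨d, hd.trans hq', hmem⟩) hδ''
  obtain ⟨q₁, hq₁, β, hβ⟩ := reg_Q hS hπ hN U hUd (fun q hq n => hUdense n q hq) q hq
  let Good : Q → W → Prop := fun q δ => ∀ n, ∀ q' ≤ q, ∀ ε, q' ∈ U n ε → ε ≤ δ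
  have hne : {δ : W | ∃ q' ≤ q₁, Good q' δ}.Nonempty := by
    refine ⟨β, q₁, le_rfl, ?_⟩
    intro n q' hq' ε hε
    obtain ⟨q3, hq3, η, hη, hmem⟩ := hβ n q' hq'
    have := hUf n ε η q3 (hUd _ _ _ _ hq3 hε) hmem
    rw [this]
    exact hη.le
  have hmin := WellFounded.min_mem (wellFounded_lt (α := W)) _ hne
  have hnlt := fun δ (h : δ ∈ {δ : W | ∃ q' ≤ q₁, Good q' δ}) =>
    WellFounded.not_lt_min (wellFounded_lt (α := W)) _ h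
  set δs := WellFounded.min (wellFounded_lt (α := W)) {δ : W | ∃ q' ≤ q₁, Good q' δ} hne
  obtain ⟨q₂, hq₂, hgood⟩ := hmin
  refine ⟨q₂, hq₂.trans hq₁, δs, ?_, ?_⟩
  · exact hgood 0 q₂ le_rfl δ₀ rfl
  · intro ξ hξ r o q' hq' t ht hs
    -- find `n` and `δ_n > ξ`
    have h1 : ¬ Good q' ξ := fun hg => hnlt ξ ⟨q', hq'.trans hq₂, hg⟩ hξ
    have h1' : ¬ ∀ n, ∀ d ≤ q', ∀ ε, d ∈ U n ε → ε ≤ ξ := h1
    push Not at h1'
    obtain ⟨n, qa, hqa, ε, hε, hξε⟩ := h1'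
    obtain ⟨qb, hqb, δ', hδ'⟩ := hUdense (n + 1) qa
      (hqa.trans (hq'.trans (hq₂.trans (hq₁.trans hq))))
    obtain ⟨δ, h2, ⟨_, h3⟩, _⟩ := hδ'
    have h4 : δ = ε := hUf n δ ε qb h2 (hUd _ _ _ _ hqb hε)
    subst h4
    obtain ⟨s, hs⟩ := hs
    obtain ⟨qc, hqc, ξ', hξ', s', h5, h6⟩ := h3 ξ hξε r o qb le_rfl t
      (hS.mono _ _ _ _ (hπ.mono _ _ (hqb.trans hqa)) ht) ⟨s, hs.mono (hqb.trans hqa)⟩
    refine ⟨qc, hqc.trans (hqb.trans hqa), ξ', hξ'.trans_le ?_, s', h5, h6⟩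
    exact hgood (n + 1) qb (hqb.trans (hqa.trans hq')) δ' ⟨δ, h2, ⟨‹_›, h3⟩, ‹_›⟩

/-- **The general non-specializability theorem.** -/
theorem not_special (hS : Sys C T Bd pc) (hπ : IsProjection π) {q₀ : Q}
    (hN : NoNewRealsOver π q₀) : ¬ ForcesSpecial q₀ T := by
  classical
  rintro ⟨τ, hτ1, hτ2, hτ3⟩
  obtain ⟨t0, r0, hB0⟩ := hS.start
  obtain ⟨c₁, hc₁, ξ0, hξ0⟩ := hS.onto (π q₀) t0
  obtain ⟨q₁, hq₁, hq₁c⟩ := hπ.lift q₀ c₁ hc₁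
  obtain ⟨δ₀, hδ₀⟩ := exists_gt_W ξ0
  obtain ⟨q₂, hq₂, δ, hδ, hcl⟩ := closure_point hS hπ hN τ δ₀ q₁ hq₁
  obtain ⟨c₃, hc₃, htot⟩ := hS.total (π q₂) δ
  obtain ⟨q₃, hq₃, hq₃c⟩ := hπ.lift q₂ c₃ hc₃
  -- the enumeration
  have hp : ∃ p : W → T, ∀ ξ < δ, pc (π q₃) ξ = some (p ξ) := by
    have h : ∀ ξ : W, ∃ s : T, ξ < δ → pc (π q₃) ξ = some s := by
      intro ξ
      by_cases hξ : ξ < δ
      · obtain ⟨s, hs⟩ := htot ξ hξ
        exact ⟨s, fun _ => hS.mono _ _ _ _ hq₃c hs⟩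
      · exact ⟨t0, fun h => absurd h hξ⟩
    choose p hp using h
    exact ⟨p, hp⟩
  obtain ⟨p, hp⟩ := hp
  haveI : Countable (Set.Iio δ) := countable_Iio_W δ
  obtain ⟨q₄, hq₄, ρ, hρ⟩ := noNew_countable hN
    (fun x : Set.Iio δ × ℕ => τ (p x.1.1) x.2) q₃ (hq₃.trans (hq₂.trans hq₁))
  have hρ' : ∀ ξ : W, ∀ h : ξ < δ, ∀ m, ∀ d ≤ q₄,
      (FMeets d (τ (p ξ) m) ↔ FMeets (π d) (ρ (⟨ξ, h⟩, m))) := by
    intro ξ h m d hd
    rw [← fmeets_pull hπ]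
    exact hρ (⟨ξ, h⟩, m) d hd
  have hp4 : ∀ q ≤ q₄, ∀ ξ < δ, pc (π q) ξ = some (p ξ) := fun q hq ξ hξ =>
    hS.mono _ _ _ _ (hπ.mono _ _ (hq.trans hq₄)) (hp ξ hξ)
  have hp4' : ∀ q ≤ q₄, ∀ ξ < δ, ∀ s, pc (π q) ξ = some s → s = p ξ := by
    intro q hq ξ hξ s hs
    have h := hp4 q hq ξ hξ
    rw [hs] at h
    exact Option.some_injective _ h
  have h42 : q₄ ≤ q₂ := hq₄.trans hq₃
  -- extension property inside the countable set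
  have hE : ∀ ξ < δ, ∀ r, Bd (p ξ) r → ∃ ξ' < δ, p ξ < p ξ' ∧ Bd (p ξ') r := by
    intro ξ hξ r hB
    obtain ⟨t', ht', hB'⟩ := hS.bext _ _ hB
    obtain ⟨q', hq', ξ', hξ', s, hs, hw⟩ := hcl ξ hξ r none q₄ h42 (p ξ) (hp4 q₄ le_rfl ξ hξ)
      ⟨t', ht', hB', fun m hm => absurd hm (by simp)⟩
    have := hp4' q' hq' ξ' hξ' s hs
    subst this
    exact ⟨ξ', hξ', hw.1, hw.2.1⟩
  let Task : ℕ → W × ℚ → C → Prop := fun m w c =>
    (∃ ξ1, ∃ h : ξ1 < δ, p ξ1 < p w.1 ∧ FMeets c (ρ (⟨ξ1, h⟩, m))) ∨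
    (∀ ξ', ∀ h : ξ' < δ, p w.1 < p ξ' → Bd (p ξ') w.2 → ∀ c' ≤ c,
      ¬ FMeets c' (ρ (⟨ξ', h⟩, m)))
  have hTm : ∀ m w c c', c' ≤ c → Task m w c → Task m w c' := by
    rintro m w c c' hcc' (⟨ξ1, h, h1, h2⟩ | h)
    · exact Or.inl ⟨ξ1, h, h1, h2.mono hcc'⟩
    · exact Or.inr fun ξ' h1 h2 h3 c'' hc'' => h ξ' h1 h2 h3 c'' (hc''.trans hcc')
  have hTw : ∀ m w w' c, Ext p w w' → Task m w c → Task m w' c := by
    rintro m w w' c hext (⟨ξ1, h, h1, h2⟩ | h)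
    · exact Or.inl ⟨ξ1, h, h1.trans hext.1, h2⟩
    · exact Or.inr fun ξ' h1 h2 h3 c'' hc'' =>
        h ξ' h1 (hext.1.trans h2) (hS.bmono _ _ _ h3 hext.2.le) c'' hc''
  have hTd : ∀ m, ∀ c' ≤ π q₄, ∀ w, InT Bd δ p w →
      ∃ c'' ≤ c', ∃ w', Ext p w w' ∧ InT Bd δ p w' ∧ Task m w' c'' := by
    intro m c' hc' w hw
    by_cases h : ∀ ξ', ∀ h : ξ' < δ, p w.1 < p ξ' → Bd (p ξ') w.2 → ∀ c'' ≤ c',
      ¬ FMeets c'' (ρ (⟨ξ', h⟩, m))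
    · obtain ⟨ξ', hξ', h1, h2⟩ := hE w.1 hw.1 w.2 hw.2
      obtain ⟨r', hr', h3⟩ := hS.bshrink _ _ h2
      refine ⟨c', le_rfl, (ξ', r'), ⟨h1, hr'⟩, ⟨hξ', h3⟩, ?_⟩
      exact hTw m w (ξ', r') c' ⟨h1, hr'⟩ (Or.inr h)
    · push Not at h
      obtain ⟨ξ', hξ', h1, h2, c'', hc'', h3⟩ := h
      obtain ⟨ξ'', hξ'', h4, h5⟩ := hE ξ' hξ' w.2 h2
      obtain ⟨r', hr', h6⟩ := hS.bshrink _ _ h5
      exact ⟨c'', hc'', (ξ'', r'), ⟨h1.trans h4, hr'⟩, ⟨hξ'', h6⟩,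
        Or.inl ⟨ξ', hξ', h4, h3⟩⟩
  have hw0 : InT Bd δ p (ξ0, r0) := by
    have h0 : ξ0 < δ := hδ₀.trans_le hδ
    refine ⟨h0, ?_⟩
    have h1 : pc (π q₄) ξ0 = some t0 :=
      hS.mono _ _ _ _ ((hπ.mono _ _ (h42.trans hq₂)).trans hq₁c) hξ0
    have h2 := hp4' q₄ le_rfl ξ0 h0 t0 h1
    change Bd (p ξ0) r0
    rw [← h2]
    exact hB0
  obtain ⟨c₅, hc₅, w, hwin, htask, t, ht⟩ := hS.star (π q₄) δ p (fun ξ hξ => hp4 q₄ le_rfl ξ hξ)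
    Task hTm hTw hTd (ξ0, r0) hw0
  obtain ⟨q₅, hq₅, hq₅c⟩ := hπ.lift q₄ c₅ hc₅
  have h50 : q₅ ≤ q₀ := hq₅.trans (h42.trans (hq₂.trans hq₁))
  obtain ⟨q₆, hq₆, m, hm⟩ := fmeets_iUnion ((hτ1 t).mono h50)
  obtain ⟨c₇, hc₇, n, hn⟩ := htask m (π q₆) ((hπ.mono _ _ hq₆).trans hq₅c)
  obtain ⟨q₇, hq₇, hq₇c⟩ := hπ.lift q₆ c₇ hc₇
  have h74 : q₇ ≤ q₄ := hq₇.trans (hq₆.trans hq₅)
  have h70 : q₇ ≤ q₀ := hq₇.trans (hq₆.trans h50)
  have hmt : FMeets q₇ (τ t m) := hm.mono hq₇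
  rcases hTm m (w n) _ _ hq₇c hn with ⟨ξ1, h, h1, h2⟩ | h
  · rw [← hρ' ξ1 h m q₇ h74] at h2
    exact hτ3 (p ξ1) t (h1.trans (ht n).1) m q₇ h70 ⟨h2, hmt⟩
  · obtain ⟨q₈, hq₈, ξ', hξ', s, hs, hw⟩ := hcl (w n).1 (hwin n).1 (w n).2 (some m) q₇
      (h74.trans h42) (p (w n).1) (hp4 q₇ h74 _ (hwin n).1)
      ⟨t, (ht n).1, (ht n).2, fun m' hm' => by
        rw [Option.some_inj] at hm'
        rw [← hm']
        exact hmt⟩
    have hsp := hp4' q₈ (hq₈.trans h74) ξ' hξ' s hs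
    subst hsp
    have h3 := hw.2.2 m rfl
    rw [hρ' ξ' hξ' m q₈ (hq₈.trans h74)] at h3
    exact h ξ' hξ' hw.1 hw.2.1 (π q₈) (hπ.mono _ _ hq₈) h3

end main

end Pool.Agent.Q308.NR
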