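import Mathlib

/-!
# Definitions: trees of height `ω₁`, and forcing over a forcing extension

The forcing relation is expressed through sets of conditions: a name for a subset of a ground
model set `X` is a map `σ : X → Set P`, where `x` belongs to the named subset iff the generic filter
meets `σ x`.  A forcing notion in the extension by `C` is represented by a forcing notion `Q` of
the ground model with a projection `π : Q → C` (for a two step iteration, the map `(c, p) ↦ c`).
-/

namespace Pool.Agent.Q308.NR

open Ordinal Cardinal Set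

universe u v

/-! ### Trees -/

/-- A tree: the (strict) predecessors of every node form a well-order. -/
def IsTree (T : Type u) [PartialOrder T] : Prop :=
  ∀ t : T, IsWellOrder {s : T // s < t} (· < ·)

/-- The node `t` is on level `α`: its predecessor set has order type `α`. -/
def OnLevel {T : Type u} [PartialOrder T] (t : T) (α : Ordinal.{u}) : Prop :=
  ∃ h : IsWellOrder {s : T // s < t} (· < ·), @Ordinal.type {s : T // s < t} (· < ·) h = α

/-- The level `T_α`. -/
def Level (T : Type u) [PartialOrder T] (α : Ordinal.{u}) : Set T := {t | OnLevel t α}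

/-- The height of the tree `T` is `η`: the least `α` with `T_α` empty is `η`. -/
def HasHeight (T : Type u) [PartialOrder T] (η : Ordinal.{u}) : Prop :=
  Level T η = ∅ ∧ ∀ α < η, (Level T α).Nonempty

/-! ### Forcing -/

/-- `p` forces that the generic filter meets `D`. -/
def FMeets {P : Type v} [Preorder P] (p : P) (D : Set P) : Prop :=
  ∀ q ≤ p, ∃ r ≤ q, ∃ d ∈ D, r ≤ d

/-- `p` forces that the generic filter does not meet `D`. -/
def FMisses {P : Type v} [Preorder P] (p : P) (D : Set P) : Prop :=
  ∀ q ≤ p, ¬ ∃ d ∈ D, q ≤ d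

/-- The well-order `ω₁` of the ground model. -/
abbrev W : Type := (ω₁ : Ordinal.{0}).ToType

/-- `c` forces that `ω₁` of the ground model is uncountable: no name for a partial function from
`ℕ` to `ω₁` is forced, by a condition below `c`, to be onto. -/
def ForcesOmegaOneUncountable {C : Type} [Preorder C] (c : C) : Prop :=
  ∀ v : ℕ → W → Set C, ∀ c' ≤ c,
    (∀ n : ℕ, ∀ η η' : W, η ≠ η' → ∀ d ≤ c', ¬ (FMeets d (v n η) ∧ FMeets d (v n η'))) →
    ¬ ∀ η : W, FMeets c' (⋃ n, v n η)

/-- `c` forces that the subset of `T` named by `σ` is a cofinal branch: a chain which meets every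
level `T_α`, `α < ω₁`. -/
def ForcesCofinalBranch {C : Type} [Preorder C] {T : Type} [PartialOrder T]
    (c : C) (σ : T → Set C) : Prop :=
  (∀ x y : T, ∀ d ≤ c, FMeets d (σ x) → FMeets d (σ y) → x ≤ y ∨ y ≤ x) ∧
  (∀ α < (ω₁ : Ordinal.{0}), ∀ d ≤ c, ∃ e ≤ d, ∃ x ∈ Level T α, FMeets e (σ x))

/-- `c` forces that the cardinality of `T` is smaller than the continuum: for every name `F` for a
map from `T` to the subsets of `ℕ`, `c` forces that some subset of `ℕ` is not in its range. -/
def ForcesCardLtContinuum {C : Type} [Preorder C] (c : C) (T : Type) : Prop :=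
  ∀ F : T → ℕ → Set C, ∀ c' ≤ c, ∃ c'' ≤ c', ∃ r : ℕ → Set C, ∀ t : T, ∀ d ≤ c'', ∃ e ≤ d,
    ∃ n : ℕ, (FMeets e (r n) ∧ FMisses e (F t n)) ∨ (FMisses e (r n) ∧ FMeets e (F t n))

/-- `π` is a projection of forcing notions. -/
structure IsProjection {Q C : Type} [Preorder Q] [Preorder C] (π : Q → C) : Prop where
  mono : ∀ q q' : Q, q' ≤ q → π q' ≤ π q
  lift : ∀ (q : Q) (c : C), c ≤ π q → ∃ q' ≤ q, π q' ≤ c

/-- The pullback of a set of conditions of `C` to `Q`: a generic filter of `Q` meets it iff the
generic filter of `C` that it induces meets `D`. -/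
def pull {Q C : Type} [Preorder C] (π : Q → C) (D : Set C) : Set Q :=
  {q | ∃ d ∈ D, π q ≤ d}

/-- Below `q₀`, forcing with `Q` adds no subset of `ℕ` which is not in the extension by `C`: every
`Q`-name for a subset of `ℕ` is forced to be equal to the subset named by some `C`-name. -/
def NoNewRealsOver {Q C : Type} [Preorder Q] [Preorder C] (π : Q → C) (q₀ : Q) : Prop :=
  ∀ σ : ℕ → Set Q, ∀ q ≤ q₀, ∃ q' ≤ q, ∃ ρ : ℕ → Set C, ∀ n : ℕ, ∀ d ≤ q',
    (FMeets d (σ n) ↔ FMeets d (pull π (ρ n)))

/-- `q` forces that `T` is special: there is a name for a map `T → ℕ` which is forced to take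
different values at different comparable nodes. -/
def ForcesSpecial {Q : Type} [Preorder Q] (q : Q) (T : Type) [PartialOrder T] : Prop :=
  ∃ τ : T → ℕ → Set Q,
    (∀ t : T, FMeets q (⋃ n, τ t n)) ∧
    (∀ t : T, ∀ m n : ℕ, m ≠ n → ∀ d ≤ q, ¬ (FMeets d (τ t m) ∧ FMeets d (τ t n))) ∧
    (∀ s t : T, s < t → ∀ n : ℕ, ∀ d ≤ q, ¬ (FMeets d (τ s n) ∧ FMeets d (τ t n)))

/-- Some condition below `c` forces that `T` can be specialized without adding reals: there are a
forcing notion of the extension by `C` (given by a projection `π : Q → C`) and a condition `q₀`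
in it below which no new reals are added and which forces `T` to be special. -/
def MaybeSpecializable {C : Type} [Preorder C] (c : C) (T : Type) [PartialOrder T] : Prop :=
  ∃ (Q : Type) (_ : Preorder Q) (π : Q → C), IsProjection π ∧
    ∃ q₀ : Q, π q₀ ≤ c ∧ NoNewRealsOver π q₀ ∧ ForcesSpecial q₀ T

end Pool.Agent.Q308.NR
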