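import Pool.Agent.Q308.NR.ColAdd

/-!
# The properties of the extension by `Col(ω₁, T) × Add(ω, J)`
-/

namespace Pool.Agent.Q308.NR

open Ordinal Cardinal Set MeasureTheory

/-! ### `ω₁` is preserved -/

theorem omegaOne_uncountable {C T : Type} [Preorder C] [PartialOrder T] {Bd : T → ℚ → Prop}
    {pc : C → W → Option T} (hS : Sys C T Bd pc) (c : C) : ForcesOmegaOneUncountable c := by
  intro v c' _ hf hall
  obtain ⟨c1, hc1, β, hβ⟩ := hS.reg
    (fun n η => {d | FMeets d (v n η) ∨ ∀ e ≤ d, ∀ η', ¬ FMeets e (v n η')})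
    (by
      rintro n η d d' hdd' (h | h)
      · exact Or.inl (h.mono hdd')
      · exact Or.inr fun e he => h e (he.trans hdd')) c'
    (by
      intro d _ n
      by_cases h : ∀ e ≤ d, ∀ η', ¬ FMeets e (v n η')
      · obtain ⟨w, _⟩ := rk_surj (α := 0) (Ordinal.omega_pos 1)
        exact ⟨d, le_rfl, w, Or.inr h⟩
      · push Not at h
        obtain ⟨e, he, η', h⟩ := h
        exact ⟨e, he, η', Or.inl h⟩)
  obtain ⟨d, hd, n, hn⟩ := fmeets_iUnion ((hall β).mono hc1)
  obtain ⟨c3, hc3, η, hη, hmem⟩ := hβ n d hd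
  rcases hmem with h | h
  · exact hf n η β hη.ne c3 (hc3.trans (hd.trans hc1)) ⟨h, hn.mono hc3⟩
  · exact h c3 le_rfl β (hn.mono hc3)

/-! ### No cofinal branch -/

theorem reg_countable {C T : Type} [Preorder C] [PartialOrder T] {Bd : T → ℚ → Prop}
    {pc : C → W → Option T} (hS : Sys C T Bd pc) {ι : Type} [Countable ι] (U : ι → W → Set C)
    (hU : ∀ n η c c', c' ≤ c → c ∈ U n η → c' ∈ U n η) (c : C)
    (hd : ∀ c' ≤ c, ∀ n, ∃ c'' ≤ c', ∃ η, c'' ∈ U n η) :
    ∃ c' ≤ c, ∃ β, ∀ n, ∀ c'' ≤ c', ∃ c3 ≤ c'', ∃ η < β, c3 ∈ U n η := by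
  obtain ⟨g, hg⟩ := exists_injective_nat ι
  obtain ⟨c', hc', β, h⟩ := hS.reg (fun n η => {c | ∀ i : ι, g i = n → c ∈ U i η}) (by
    intro n η c c' hcc' h i hi
    exact hU _ _ _ _ hcc' (h i hi)) c (by
    intro d hdc n
    by_cases hn : ∃ i, g i = n
    · obtain ⟨i, rfl⟩ := hn
      obtain ⟨e, he, η, hη⟩ := hd d hdc i
      exact ⟨e, he, η, fun j hj => by rw [hg hj]; exact hη⟩
    · obtain ⟨w, _⟩ := rk_surj (α := 0) (Ordinal.omega_pos 1)
      exact ⟨d, le_rfl, w, fun i hi => absurd ⟨i, hi⟩ hn⟩)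
  refine ⟨c', hc', β, fun i c'' hc'' => ?_⟩
  obtain ⟨c3, hc3, η, hη, hmem⟩ := h (g i) c'' hc''
  exact ⟨c3, hc3, η, hη, hmem i rfl⟩

theorem exists_lt_onLevel {T : Type} [PartialOrder T] {t : T} {α β : Ordinal.{0}}
    (ht : OnLevel t β) (hα : α < β) : ∃ s < t, OnLevel s α := by
  obtain ⟨h', rfl⟩ := ht
  let a := @enum {x : T // x < t} (· < ·) h' ⟨α, hα⟩
  have ha : @typein {x : T // x < t} (· < ·) h' a = α := typein_enum _ hα
  rw [← type_subrel] at ha
  have e : (fun x y : {x : T // x < a.1} => x < y) ≃r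
      (Subrel (fun x y : {x : T // x < t} => x < y) (fun b => b < a)) := by
    refine ⟨⟨fun x => ⟨⟨x.1, x.2.trans a.2⟩, x.2⟩, fun x => ⟨x.1.1, x.2⟩, fun x => rfl,
      fun x => rfl⟩, ?_⟩
    intro a b
    rfl
  haveI : IsWellOrder {x : T // x < a.1} (· < ·) := e.toRelEmbedding.isWellOrder
  refine ⟨a.1, a.2, this, ?_⟩
  rw [← ha]
  exact Ordinal.type_eq.2 ⟨e⟩

theorem no_cofinal_branch {C : Type} [Preorder C] {pc : C → W → Option SQ}
    (hS : Sys C SQ SQ.Bd pc) (c : C) (σ : SQ → Set C) : ¬ ForcesCofinalBranch c σ := by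
  rintro ⟨hchain, hmeets⟩
  obtain ⟨c1, hc1, β, hβ⟩ := reg_countable hS (ι := ℚ)
    (fun x η => {d | (∃ t : SQ, FMeets d (σ t) ∧ x ∈ t.carrier ∧ OnLevel (t.cut x) (rk η)) ∨
      ∀ e ≤ d, ∀ t : SQ, FMeets e (σ t) → x ∉ t.carrier})
    (by
      rintro x η d d' hdd' (⟨t, h1, h2, h3⟩ | h)
      · exact Or.inl ⟨t, h1.mono hdd', h2, h3⟩
      · exact Or.inr fun e he => h e (he.trans hdd')) c
    (by
      intro d _ x
      by_cases h : ∀ e ≤ d, ∀ t : SQ, FMeets e (σ t) → x ∉ t.carrier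
      · obtain ⟨w, _⟩ := rk_surj (α := 0) (Ordinal.omega_pos 1)
        exact ⟨d, le_rfl, w, Or.inr h⟩
      · push Not at h
        obtain ⟨e, he, t, h1, h2⟩ := h
        obtain ⟨α, hα⟩ : ∃ α, OnLevel (t.cut x) α := ⟨_, SQ.isTree _, rfl⟩
        have hαω : α < ω₁ := by
          by_contra hcon
          rcases (not_lt.1 hcon).lt_or_eq with hlt | heq
          · obtain ⟨s, _, hs⟩ := exists_lt_onLevel hα hlt
            have : s ∈ Level SQ ω₁ := hs
            rw [SQ.hasHeight.1] at this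
            exact this
          · subst heq
            have : t.cut x ∈ Level SQ ω₁ := hα
            rw [SQ.hasHeight.1] at this
            exact this
        obtain ⟨η, hη⟩ := rk_surj hαω
        exact ⟨e, he, η, Or.inl ⟨t, h1, h2, by rw [hη]; exact hα⟩⟩)
  obtain ⟨c2, hc2, t, ht, hm⟩ := hmeets _ (succ_lt_omega_one (rk_lt β)) c1 hc1
  obtain ⟨s, hs, hsl⟩ := exists_lt_onLevel ht (Order.lt_succ (rk β))
  obtain ⟨x, hx, _, rfl⟩ := SQ.exists_cut hs
  obtain ⟨c3, hc3, η, hη, hmem⟩ := hβ x c2 hc2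
  rcases hmem with ⟨t', h1, h2, h3⟩ | h
  · have h4 : t.cut x = t'.cut x := by
      rcases hchain t t' c3 (hc3.trans (hc2.trans hc1)) (hm.mono hc3) h1 with h | h
      · exact SQ.cut_eq_cut h hx
      · exact (SQ.cut_eq_cut h h2).symm
    rw [← h4] at h3
    have h5 : rk η = rk β := by
      obtain ⟨_, h6⟩ := h3
      obtain ⟨_, h7⟩ := hsl
      rw [← h6, ← h7]
    exact hη.ne (rk_inj h5)
  · exact h c3 le_rfl t (hm.mono hc3) hx

/-! ### The countable chain condition -/

/-- The fair coin measure. -/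
noncomputable def coin : Measure Bool := (PMF.uniformOfFintype Bool).toMeasure

instance : IsProbabilityMeasure coin := by unfold coin; infer_instance

theorem coin_pos {A : Set Bool} (h : A.Nonempty) : 0 < coin A := by
  obtain ⟨b, hb⟩ := h
  have h1 : coin {b} = 2⁻¹ := by
    unfold coin
    rw [PMF.toMeasure_apply_singleton _ _ (MeasurableSet.singleton _)]
    simp
  have h2 : coin {b} ≤ coin A := measure_mono (by simpa using hb)
  rw [h1] at h2
  exact lt_of_lt_of_le (by simp) h2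

theorem ccc {J κ : Type} (hκ : ¬ Countable κ) (a : κ → Add J) :
    ∃ k l, k ≠ l ∧ ∀ x ∈ (a k).1, ∀ y ∈ (a l).1, x.1 = y.1 → x.2 = y.2 := by
  classical
  by_contra hcon
  push Not at hcon
  apply hκ
  let μ : Measure (J → Bool) := Measure.infinitePi fun _ => coin
  let N : κ → Set (J → Bool) := fun k =>
    Set.pi ((a k).1.image Prod.fst : Finset J) (fun j => {b | (j, b) ∈ (a k).1})
  have hNval : ∀ k, ∀ x ∈ N k, ∀ y ∈ (a k).1, x y.1 = y.2 := by
    intro k x hx y hy
    have h1 : (y.1, x y.1) ∈ (a k).1 :=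
      hx y.1 (Finset.mem_coe.2 (Finset.mem_image_of_mem Prod.fst hy))
    exact (a k).2 _ h1 y hy rfl
  have hmeas : ∀ k, MeasurableSet (N k) := fun k =>
    MeasurableSet.pi (Finset.countable_toSet _) fun j _ => MeasurableSet.of_discrete
  have hdisj : Pairwise (Function.onFun Disjoint N) := by
    intro k l hkl
    rw [Function.onFun, Set.disjoint_left]
    intro x hx hx'
    obtain ⟨y, hy, z, hz, hyz, hne⟩ := hcon k l hkl
    apply hne
    rw [← hNval k x hx y hy, ← hNval l x hx' z hz, hyz]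
  have hpos : ∀ k, 0 < μ (N k) := by
    intro k
    have h1 : μ (N k) = ∏ j ∈ (a k).1.image Prod.fst, coin {b | (j, b) ∈ (a k).1} :=
      Measure.infinitePi_pi _ fun j _ => MeasurableSet.of_discrete
    rw [h1]
    rw [pos_iff_ne_zero, Finset.prod_ne_zero_iff]
    intro j hj
    obtain ⟨y, hy, rfl⟩ := Finset.mem_image.1 hj
    exact (coin_pos ⟨y.2, hy⟩).ne'
  have h := Measure.countable_meas_pos_of_disjoint_iUnion (μ := μ) hmeas hdisj
  have h2 : {i | 0 < μ (N i)} = Set.univ := by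
    ext k
    simp only [Set.mem_univ, iff_true]
    exact hpos k
  rw [h2] at h
  exact Set.countable_univ_iff.1 h

/-! ### Cardinality -/

theorem mk_Col_le {T : Type} (hT : #T ≤ 𝔠) : #(Col T) ≤ 𝔠 := by
  classical
  have hinj : ∀ δ : W, ∃ e : Set.Iio δ → ℕ, Function.Injective e := by
    intro δ
    haveI : Countable (Set.Iio δ) := countable_Iio_W δ
    exact exists_injective_nat _
  choose e he using hinj
  have hbd : ∀ p : Col T, ∃ δ, ∀ ξ, δ ≤ ξ → p.1 ξ = none := fun p => p.2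
  choose b hb using hbd
  let f : Col T → W × (ℕ → Option T) := fun p =>
    (b p, fun n => if h : ∃ ξ : Set.Iio (b p), e (b p) ξ = n then p.1 h.choose.1 else none)
  have hf : Function.Injective f := by
    intro p q hpq
    have h1 : b p = b q := congrArg Prod.fst hpq
    have h2 : ∀ n, (f p).2 n = (f q).2 n := fun n => by rw [hpq]
    apply Subtype.ext
    funext ξ
    rcases lt_or_ge ξ (b p) with hξ | hξ
    · have h3 := h2 (e (b p) ⟨ξ, hξ⟩)
      have h4 : ∃ ξ' : Set.Iio (b p), e (b p) ξ' = e (b p) ⟨ξ, hξ⟩ := ⟨⟨ξ, hξ⟩, rfl⟩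
      have h5 : ∃ ξ' : Set.Iio (b q), e (b q) ξ' = e (b p) ⟨ξ, hξ⟩ := by
        rw [← h1]
        exact h4
      change (if h : ∃ ξ' : Set.Iio (b p), e (b p) ξ' = e (b p) ⟨ξ, hξ⟩ then p.1 h.choose.1
        else none) = (if h : ∃ ξ' : Set.Iio (b q), e (b q) ξ' = e (b p) ⟨ξ, hξ⟩ then
        q.1 h.choose.1 else none) at h3
      rw [dif_pos h4, dif_pos h5] at h3
      have h6 : h4.choose.1 = ξ := by
        have := he (b p) h4.choose_spec
        rw [this]
      have h7 : h5.choose.1 = ξ := by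
        have key : ∀ δ, ∀ (hδ : b p = δ) (h : ∃ ξ' : Set.Iio δ, e δ ξ' = e (b p) ⟨ξ, hξ⟩),
            h.choose.1 = ξ := by
          intro δ hδ h
          subst hδ
          have := he (b p) h.choose_spec
          rw [this]
        exact key (b q) h1 h5
      rw [h6, h7] at h3
      exact h3
    · rw [hb p ξ hξ, hb q ξ (h1 ▸ hξ)]
  refine (Cardinal.mk_le_of_injective hf).trans ?_
  rw [Cardinal.mk_prod, Cardinal.lift_id, Cardinal.lift_id]
  have hW : #W ≤ 𝔠 := by
    rw [mk_W, ← Cardinal.succ_aleph0]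
    exact Order.succ_le_of_lt Cardinal.aleph0_lt_continuum
  have hO : #(Option T) ≤ 𝔠 := by
    rw [Cardinal.mk_option]
    refine (add_le_add hT (Cardinal.one_le_aleph0.trans Cardinal.aleph0_le_continuum)).trans ?_
    exact (Cardinal.add_eq_self Cardinal.aleph0_le_continuum).le
  have hF : #(ℕ → Option T) ≤ 𝔠 := by
    rw [← Cardinal.power_def, Cardinal.mk_nat]
    refine (Cardinal.power_le_power_right hO).trans ?_
    rw [Cardinal.continuum_power_aleph0]
  refine (mul_le_mul' hW hF).trans ?_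
  exact (Cardinal.mul_eq_self Cardinal.aleph0_le_continuum).le

/-- The index set of the Cohen reals: a set of cardinality `(2^ℵ₀)⁺`. -/
abbrev K : Type := (Order.succ 𝔠 : Cardinal.{0}).out

theorem mk_K : #K = Order.succ 𝔠 := Cardinal.mk_out _

theorem card_lt (c : Col SQ × Add (K × ℕ)) : ForcesCardLtContinuum c SQ := by
  classical
  intro F c' _
  by_contra hcon
  push Not at hcon
  let r : K → ℕ → Set (Col SQ × Add (K × ℕ)) := fun k n => {d | ((k, n), true) ∈ d.2.1}
  choose t d hd h using fun k : K => hcon c' le_rfl (r k)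
  let g : K → (SQ × Col SQ) × ℕ := fun k => ((t k, (d k).1), 0)
  have hcard : #((SQ × Col SQ) × ℕ) < #K := by
    rw [mk_K, Order.lt_succ_iff, Cardinal.mk_prod, Cardinal.mk_prod]
    simp only [Cardinal.lift_id, Cardinal.mk_nat]
    refine (mul_le_mul' (mul_le_mul' SQ.mk_le (mk_Col_le SQ.mk_le))
      Cardinal.aleph0_le_continuum).trans ?_
    rw [Cardinal.mul_eq_self Cardinal.aleph0_le_continuum,
      Cardinal.mul_eq_self Cardinal.aleph0_le_continuum]
  haveI : Uncountable K := by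
    rw [← Cardinal.aleph0_lt_mk_iff, mk_K]
    exact Cardinal.aleph0_lt_continuum.trans (Order.lt_succ _)
  obtain ⟨⟨⟨ts, ps⟩, m⟩, hunc⟩ := Cardinal.exists_uncountable_fiber g hcard
  obtain ⟨⟨k, hk⟩, ⟨l, hl⟩, hkl, hcomp⟩ := ccc (not_countable_iff.2 hunc)
    (fun k : g ⁻¹' {((ts, ps), m)} => (d k.1).2)
  have hkl' : k ≠ l := fun h => hkl (Subtype.ext h)
  have hk' : g k = ((ts, ps), m) := hk
  have hl' : g l = ((ts, ps), m) := hl
  have htk : t k = ts := congrArg (fun x => x.1.1) hk'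
  have htl : t l = ts := congrArg (fun x => x.1.1) hl'
  have hpk : (d k).1 = ps := congrArg (fun x => x.1.2) hk'
  have hpl : (d l).1 = ps := congrArg (fun x => x.1.2) hl'
  change ∀ x ∈ (d k).2.1, ∀ y ∈ (d l).2.1, x.1 = y.1 → x.2 = y.2 at hcomp
  -- a fresh coordinate
  obtain ⟨n, hn⟩ : ∃ n : ℕ, ∀ x ∈ (d k).2.1 ∪ (d l).2.1, x.1.2 ≠ n := by
    obtain ⟨n, hn⟩ := Infinite.exists_notMem_finset
      (((d k).2.1 ∪ (d l).2.1).image (fun x => x.1.2))
    exact ⟨n, fun x hx hxn => hn (Finset.mem_image.2 ⟨x, hx, hxn⟩)⟩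
  let s : Finset ((K × ℕ) × Bool) :=
    insert ((k, n), true) (insert ((l, n), false) ((d k).2.1 ∪ (d l).2.1))
  have hs : ∀ x ∈ s, ∀ y ∈ s, x.1 = y.1 → x.2 = y.2 := by
    have hun : ∀ x ∈ (d k).2.1 ∪ (d l).2.1, ∀ y ∈ (d k).2.1 ∪ (d l).2.1, x.1 = y.1 →
        x.2 = y.2 := by
      intro x hx y hy hxy
      rcases Finset.mem_union.1 hx with hx | hx <;> rcases Finset.mem_union.1 hy with hy | hy
      · exact (d k).2.2 x hx y hy hxy
      · exact hcomp x hx y hy hxy
      · exact (hcomp y hy x hx hxy.symm).symm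
      · exact (d l).2.2 x hx y hy hxy
    intro x hx y hy hxy
    rcases Finset.mem_insert.1 hx with rfl | hx
    · rcases Finset.mem_insert.1 hy with rfl | hy
      · rfl
      · rcases Finset.mem_insert.1 hy with rfl | hy
        · exact absurd (congrArg Prod.fst hxy) hkl'
        · exact absurd (congrArg Prod.snd hxy).symm (hn y hy)
    · rcases Finset.mem_insert.1 hx with rfl | hx
      · rcases Finset.mem_insert.1 hy with rfl | hy
        · exact absurd (congrArg Prod.fst hxy).symm hkl'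
        · rcases Finset.mem_insert.1 hy with rfl | hy
          · rfl
          · exact absurd (congrArg Prod.snd hxy).symm (hn y hy)
      · rcases Finset.mem_insert.1 hy with rfl | hy
        · exact absurd (congrArg Prod.snd hxy) (hn x hx)
        · rcases Finset.mem_insert.1 hy with rfl | hy
          · exact absurd (congrArg Prod.snd hxy) (hn x hx)
          · exact hun x hx y hy hxy
  let e : Col SQ × Add (K × ℕ) := (ps, ⟨s, hs⟩)
  have hek : e ≤ d k := by
    refine ⟨?_, fun x hx => ?_⟩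
    · rw [hpk]
    · exact Finset.mem_insert_of_mem (Finset.mem_insert_of_mem (Finset.mem_union_left _ hx))
  have hel : e ≤ d l := by
    refine ⟨?_, fun x hx => ?_⟩
    · rw [hpl]
    · exact Finset.mem_insert_of_mem (Finset.mem_insert_of_mem (Finset.mem_union_right _ hx))
  have hrk : FMeets e (r k n) := FMeets.of_mem (show e ∈ r k n from Finset.mem_insert_self _ _)
    le_rfl
  have hrl : FMisses e (r l n) := by
    rintro q hq ⟨q', hq', hqq'⟩
    have h1 : ((l, n), true) ∈ q.2.1 := hqq'.2 hq'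
    have h2 : ((l, n), false) ∈ q.2.1 :=
      hq.2 (Finset.mem_insert_of_mem (Finset.mem_insert_self _ _))
    exact absurd (q.2.2 _ h1 _ h2 rfl) (by simp)
  have hFm : FMeets e (F ts n) := by
    intro q hq
    have h1 := (h k q (hq.trans hek) n).1 (hrk.mono hq)
    rw [htk] at h1
    unfold FMisses at h1
    push Not at h1
    obtain ⟨q', hq', hmem⟩ := h1
    exact ⟨q', hq', hmem⟩
  have h2 := (h l e hel n).2 hrl
  rw [htl] at h2
  exact h2 hFm

end Pool.Agent.Q308.NR
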