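import Pool.Agent.Q308.NR.Core

/-!
# The tree of bounded well-ordered sets of rationals
-/

namespace Pool.Agent.Q308.NR

open Ordinal Cardinal Set

/-- Bounded well-ordered sets of rational numbers. -/
structure SQ : Type where
  carrier : Set ℚ
  wf : ∀ A ⊆ carrier, A.Nonempty → ∃ x ∈ A, ∀ y ∈ A, x ≤ y
  bdd : ∃ r, ∀ x ∈ carrier, x < r

namespace SQ

theorem ext' {s t : SQ} (h : s.carrier = t.carrier) : s = t := by
  cases s; cases t; cases h; rfl

/-- End-extension. -/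
instance : PartialOrder SQ where
  le s t := s.carrier ⊆ t.carrier ∧ ∀ x ∈ t.carrier, ∀ y ∈ s.carrier, x ≤ y → x ∈ s.carrier
  le_refl s := ⟨Set.Subset.refl _, fun x hx _ _ _ => hx⟩
  le_trans s t u h h' := ⟨h.1.trans h'.1, fun x hx y hy hxy =>
    h.2 x (h'.2 x hx y (h.1 hy) hxy) y hy hxy⟩
  le_antisymm s t h h' := ext' (Set.Subset.antisymm h.1 h'.1)

theorem le_def {s t : SQ} : s ≤ t ↔ s.carrier ⊆ t.carrier ∧
    ∀ x ∈ t.carrier, ∀ y ∈ s.carrier, x ≤ y → x ∈ s.carrier := Iff.rfl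

/-- The part of `t` below `x`. -/
def cut (t : SQ) (x : ℚ) : SQ where
  carrier := {y ∈ t.carrier | y < x}
  wf A hA hne := t.wf A (hA.trans fun _ h => h.1) hne
  bdd := by
    obtain ⟨r, hr⟩ := t.bdd
    exact ⟨r, fun x hx => hr x hx.1⟩

theorem cut_le (t : SQ) (x : ℚ) : t.cut x ≤ t :=
  ⟨fun _ h => h.1, fun _ hy _ hz hyz => ⟨hy, hyz.trans_lt hz.2⟩⟩

theorem cut_lt (t : SQ) {x : ℚ} (hx : x ∈ t.carrier) : t.cut x < t := by
  refine lt_of_le_of_ne (cut_le t x) fun h => ?_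
  have : x ∈ (t.cut x).carrier := by rw [h]; exact hx
  exact this.2.false

theorem exists_cut {s t : SQ} (h : s < t) : ∃ x ∈ t.carrier, x ∉ s.carrier ∧ s = t.cut x := by
  have hne : (t.carrier \ s.carrier).Nonempty := by
    by_contra hc
    rw [Set.not_nonempty_iff_eq_empty, Set.sdiff_eq_empty] at hc
    exact h.ne (le_antisymm h.le ⟨hc, fun x hx y _ _ => h.le.1 hx⟩)
  obtain ⟨x, hx, hmin⟩ := t.wf _ Set.sdiff_subset hne
  refine ⟨x, hx.1, hx.2, ext' ?_⟩
  ext y
  constructor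
  · intro hy
    refine ⟨h.le.1 hy, ?_⟩
    by_contra hc
    exact hx.2 (h.le.2 x hx.1 y hy (not_lt.1 hc))
  · rintro ⟨hy, hyx⟩
    by_contra hc
    exact absurd (hmin y ⟨hy, hc⟩) (not_le.2 hyx)

theorem cut_eq_cut {s t : SQ} (h : s ≤ t) {x : ℚ} (hx : x ∈ s.carrier) : s.cut x = t.cut x := by
  apply ext'
  ext y
  constructor
  · rintro ⟨hy, hyx⟩
    exact ⟨h.1 hy, hyx⟩
  · rintro ⟨hy, hyx⟩
    exact ⟨h.2 y hy x hx hyx.le, hyx⟩

theorem cut_inj {t : SQ} {x y : ℚ} (hx : x ∈ t.carrier) (hy : y ∈ t.carrier)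
    (h : t.cut x = t.cut y) : x = y := by
  rcases lt_trichotomy x y with h1 | h1 | h1
  · have : x ∈ (t.cut y).carrier := ⟨hx, h1⟩
    rw [← h] at this
    exact absurd this.2 (lt_irrefl _)
  · exact h1
  · have : y ∈ (t.cut x).carrier := ⟨hy, h1⟩
    rw [h] at this
    exact absurd this.2 (lt_irrefl _)

theorem cut_lt_cut {t : SQ} {x y : ℚ} (hx : x ∈ t.carrier) (hy : y ∈ t.carrier) :
    t.cut x < t.cut y ↔ x < y := by
  constructor
  · intro h
    by_contra hc
    have h1 : t.cut y ≤ t.cut x := by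
      refine ⟨fun z hz => ⟨hz.1, hz.2.trans_le (not_lt.1 hc)⟩, fun z hz w hw hzw => ?_⟩
      exact ⟨hz.1, hzw.trans_lt hw.2⟩
    exact h.not_ge h1
  · intro h
    refine lt_of_le_of_ne ?_ fun he => h.ne (cut_inj hx hy he)
    exact ⟨fun z hz => ⟨hz.1, hz.2.trans h⟩, fun z hz w hw hzw => ⟨hz.1, hzw.trans_lt hw.2⟩⟩

/-- The predecessors of `t` are isomorphic to `t`. -/
noncomputable def predIso (t : SQ) :
    (fun a b : {s : SQ // s < t} => a < b) ≃r (fun a b : t.carrier => a < b) where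
  toFun s := ⟨(exists_cut s.2).choose, (exists_cut s.2).choose_spec.1⟩
  invFun x := ⟨t.cut x.1, cut_lt t x.2⟩
  left_inv s := Subtype.ext (exists_cut s.2).choose_spec.2.2.symm
  right_inv x := by
    apply Subtype.ext
    have h := (exists_cut (cut_lt t x.2)).choose_spec
    exact (cut_inj x.2 h.1 h.2.2).symm
  map_rel_iff' := by
    intro a b
    have ha := (exists_cut a.2).choose_spec
    have hb := (exists_cut b.2).choose_spec
    have h1 : a < b ↔ t.cut (exists_cut a.2).choose < t.cut (exists_cut b.2).choose := by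
      rw [← ha.2.2, ← hb.2.2]
      exact Iff.rfl
    rw [h1, cut_lt_cut ha.1 hb.1]
    exact Iff.rfl

instance carrier_wo (t : SQ) : IsWellOrder t.carrier (· < ·) := by
  have hwf : WellFounded (fun a b : t.carrier => a < b) := by
    rw [WellFounded.wellFounded_iff_has_min]
    intro A hA
    obtain ⟨x, hx, hmin⟩ := t.wf (Subtype.val '' A) (by rintro _ ⟨y, _, rfl⟩; exact y.2)
      (hA.image _)
    obtain ⟨x', hx', rfl⟩ := hx
    exact ⟨x', hx', fun y hy h => absurd (hmin y.1 ⟨y, hy, rfl⟩) (not_le.2 h)⟩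
  exact { wf := hwf }

theorem isTree : IsTree SQ := fun t => (predIso t).toRelEmbedding.isWellOrder

theorem onLevel_iff {t : SQ} {α : Ordinal.{0}} :
    OnLevel t α ↔ Ordinal.type (fun a b : t.carrier => a < b) = α := by
  haveI := isTree t
  have h1 : Ordinal.type (fun a b : {s : SQ // s < t} => a < b) =
      Ordinal.type (fun a b : t.carrier => a < b) := Ordinal.type_eq.2 ⟨predIso t⟩
  constructor
  · rintro ⟨h, rfl⟩
    rw [← h1]
  · rintro rfl
    exact ⟨isTree t, h1⟩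

theorem hasHeight : HasHeight SQ ω₁ := by
  constructor
  · ext t
    constructor
    · intro ht
      have h1 := onLevel_iff.1 ht
      have h2 := congrArg Ordinal.card h1
      rw [Ordinal.card_type] at h2
      have h3 : #t.carrier ≤ ℵ₀ := Cardinal.mk_le_aleph0
      rw [h2] at h3
      simp at h3
    · intro h
      exact h.elim
  · intro α hα
    have hc : Countable α.ToType := by
      rw [← Cardinal.mk_le_aleph0_iff, Cardinal.mk_toType, ← Order.lt_succ_iff,
        Cardinal.succ_aleph0, ← Cardinal.lt_ord, Cardinal.ord_aleph]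
      exact hα
    haveI : Nontrivial (Set.Ioo (0 : ℚ) 1) :=
      ⟨⟨⟨1 / 2, by norm_num, by norm_num⟩, ⟨1 / 3, by norm_num, by norm_num⟩, by
        intro h
        have h1 : (1 / 2 : ℚ) = 1 / 3 := congrArg Subtype.val h
        norm_num at h1⟩⟩
    obtain ⟨f⟩ := Order.embedding_from_countable_to_dense α.ToType (Set.Ioo (0 : ℚ) 1)
    have hfm : StrictMono f := f.strictMono
    have hwf : ∀ A ⊆ Set.range (fun a => ((f a : Set.Ioo (0 : ℚ) 1) : ℚ)), A.Nonempty →
        ∃ x ∈ A, ∀ y ∈ A, x ≤ y := by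
      intro A hA hne
      obtain ⟨y, hy⟩ := hne
      obtain ⟨b, hb⟩ := hA hy
      have hne' : {a : α.ToType | ((f a : Set.Ioo (0 : ℚ) 1) : ℚ) ∈ A}.Nonempty :=
        ⟨b, by rw [Set.mem_ofPred_eq, show ((f b : Set.Ioo (0 : ℚ) 1) : ℚ) = y from hb]; exact hy⟩
      have h1 := WellFounded.min_mem (wellFounded_lt (α := α.ToType)) _ hne'
      have h2 := fun a (h : a ∈ {a : α.ToType | ((f a : Set.Ioo (0 : ℚ) 1) : ℚ) ∈ A}) =>
        WellFounded.not_lt_min (wellFounded_lt (α := α.ToType)) _ h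
      refine ⟨_, h1, ?_⟩
      intro z hz
      obtain ⟨a, rfl⟩ := hA hz
      have h3 := not_lt.1 (h2 a hz)
      exact hfm.monotone h3
    obtain ⟨t, ht⟩ : ∃ t : SQ, t.carrier = Set.range (fun a => ((f a : Set.Ioo (0 : ℚ) 1) : ℚ)) :=
      ⟨⟨_, hwf, ⟨1, by
        rintro _ ⟨a, rfl⟩
        exact (f a).2.2⟩⟩, rfl⟩
    refine ⟨t, ?_⟩
    change OnLevel t _
    rw [onLevel_iff]
    conv_rhs => rw [← Ordinal.type_toType α]
    symm
    have hmem : ∀ a, ((f a : Set.Ioo (0 : ℚ) 1) : ℚ) ∈ t.carrier := by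
      intro a
      rw [ht]
      exact ⟨a, rfl⟩
    refine Ordinal.type_eq.2 ⟨?_⟩
    refine ⟨Equiv.ofBijective (fun a => (⟨((f a : Set.Ioo (0 : ℚ) 1) : ℚ), hmem a⟩ : t.carrier))
      ?_, ?_⟩
    · constructor
      · intro a b hab
        exact hfm.injective (Subtype.ext (Subtype.mk.inj hab))
      · rintro ⟨x, hx⟩
        obtain ⟨a, ha⟩ := (show x ∈ Set.range (fun a => ((f a : Set.Ioo (0 : ℚ) 1) : ℚ)) by
          rw [← ht]; exact hx)
        exact ⟨a, Subtype.ext ha⟩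
    · intro a b
      exact hfm.lt_iff_lt

/-- Strong boundedness. -/
def Bd (t : SQ) (r : ℚ) : Prop := ∃ y < r, ∀ x ∈ t.carrier, x < y

theorem bd_mono (t : SQ) (r r' : ℚ) (h : Bd t r) (hr : r ≤ r') : Bd t r' := by
  obtain ⟨y, hy, h⟩ := h
  exact ⟨y, hy.trans_le hr, h⟩

theorem bd_shrink (t : SQ) (r : ℚ) (h : Bd t r) : ∃ r' < r, Bd t r' := by
  obtain ⟨y, hy, h⟩ := h
  exact ⟨(y + r) / 2, by linarith, y, by linarith, h⟩

theorem bd_ext (t : SQ) (r : ℚ) (h : Bd t r) : ∃ t', t < t' ∧ Bd t' r := by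
  obtain ⟨y, hy, h⟩ := h
  have hyn : y ∉ t.carrier := fun h' => (h y h').false
  refine ⟨⟨insert y t.carrier, ?_, ?_⟩, ?_, ?_⟩
  · intro A hA hne
    by_cases hA' : (A ∩ t.carrier).Nonempty
    · obtain ⟨x, hx, hmin⟩ := t.wf _ Set.inter_subset_right hA'
      refine ⟨x, hx.1, fun z hz => ?_⟩
      rcases hA hz with rfl | hz'
      · exact (h x hx.2).le
      · exact hmin z ⟨hz, hz'⟩
    · obtain ⟨x, hx⟩ := hne
      refine ⟨x, hx, fun z hz => ?_⟩
      have h1 : ∀ w ∈ A, w = y := by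
        intro w hw
        rcases hA hw with rfl | hw'
        · rfl
        · exact absurd ⟨w, hw, hw'⟩ hA'
      rw [h1 x hx, h1 z hz]
  · refine ⟨r, ?_⟩
    rintro x (rfl | hx)
    · exact hy
    · exact (h x hx).trans hy
  · refine lt_of_le_of_ne ⟨fun x hx => Or.inr hx, ?_⟩ ?_
    · rintro x (rfl | hx) z hz hxz
      · exact absurd (h z hz) (not_lt.2 hxz)
      · exact hx
    · intro he
      apply hyn
      rw [he]
      exact Or.inl rfl
  · refine ⟨(y + r) / 2, by linarith, ?_⟩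
    rintro x (rfl | hx)
    · linarith
    · have := h x hx
      linarith

/-- Unions of increasing sequences. -/
theorem exists_union (t : ℕ → SQ) (ht : ∀ n, t n < t (n + 1)) (r : ℕ → ℚ)
    (hr : ∀ n, r (n + 1) < r n) (hB : ∀ n, Bd (t n) (r n)) :
    ∃ s : SQ, ∀ n, t n < s ∧ Bd s (r n) := by
  have hmono : Monotone t := monotone_nat_of_le_succ fun n => (ht n).le
  have hranti : Antitone r := antitone_nat_of_succ_le fun n => (hr n).le
  have hbd : ∀ n, ∀ x ∈ ⋃ k, (t k).carrier, x < r n := by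
    intro n x hx
    obtain ⟨k, hk⟩ := Set.mem_iUnion.1 hx
    have h1 : x ∈ (t (max n k)).carrier := (hmono (le_max_right n k)).1 hk
    obtain ⟨y, hy, hy'⟩ := hB (max n k)
    exact ((hy' x h1).trans hy).trans_le (hranti (le_max_left n k))
  have hle : ∀ n, (t n).carrier ⊆ ⋃ k, (t k).carrier ∧
      ∀ x ∈ ⋃ k, (t k).carrier, ∀ y ∈ (t n).carrier, x ≤ y → x ∈ (t n).carrier := by
    intro n
    refine ⟨Set.subset_iUnion (fun k => (t k).carrier) n, ?_⟩
    intro x hx y hy hxy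
    obtain ⟨k, hk⟩ := Set.mem_iUnion.1 hx
    rcases le_total k n with h | h
    · exact (hmono h).1 hk
    · exact (hmono h).2 x hk y hy hxy
  let s : SQ := ⟨⋃ k, (t k).carrier, by
    intro A hA hne
    obtain ⟨a, ha⟩ := hne
    obtain ⟨n, hn⟩ := Set.mem_iUnion.1 (hA ha)
    obtain ⟨x, hx, hmin⟩ := (t n).wf (A ∩ (t n).carrier) Set.inter_subset_right ⟨a, ha, hn⟩
    refine ⟨x, hx.1, fun z hz => ?_⟩
    by_contra hc
    have h1 : z ∈ (t n).carrier := (hle n).2 z (hA hz) x hx.2 (not_le.1 hc).le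
    exact hc (hmin z ⟨hz, h1⟩), ⟨r 0, hbd 0⟩⟩
  refine ⟨s, fun n => ⟨(ht n).trans_le (hle (n + 1)), r (n + 1), hr n, hbd (n + 1)⟩⟩

theorem mk_le : #SQ ≤ 𝔠 := by
  have h : Function.Injective (fun t : SQ => t.carrier) := fun s t h => ext' h
  refine (Cardinal.mk_le_of_injective h).trans ?_
  rw [Cardinal.mk_set, Cardinal.mkRat]
  simp

/-- The empty node. -/
def empty : SQ := ⟨∅, fun A hA hne => by
  obtain ⟨x, hx⟩ := hne
  exact absurd (hA hx) (Set.notMem_empty x), ⟨0, fun x hx => absurd hx (Set.notMem_empty x)⟩⟩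

theorem bd_empty : Bd empty 0 := ⟨-1, by norm_num, fun x hx => absurd hx (Set.notMem_empty x)⟩

end SQ

end Pool.Agent.Q308.NR
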